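import Mathlib

/-!
Finite sets of naturals as numbers (bits), bounded quantifiers, and primitive recursiveness.
-/

namespace R624DI

/-- bounded universal quantifier -/
def ball (p : ℕ → Bool) : ℕ → Bool
  | 0 => true
  | n + 1 => ball p n && p n

theorem ball_iff (p : ℕ → Bool) (n : ℕ) : ball p n = true ↔ ∀ i < n, p i = true := by
  induction n with
  | zero => simp [ball]
  | succ n ih =>
    simp only [ball, Bool.and_eq_true, ih]
    constructor
    · rintro ⟨h1, h2⟩ i hi
      rcases Nat.lt_succ_iff_lt_or_eq.1 hi with h | rfl
      · exact h1 i h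
      · exact h2
    · intro h
      exact ⟨fun i hi => h i (by omega), h n (by omega)⟩

/-- the number whose bits below `n` are given by `p` -/
def mk (p : ℕ → Bool) : ℕ → ℕ
  | 0 => 0
  | n + 1 => cond (p n) (2 ^ n) 0 + mk p n

theorem mk_lt (p : ℕ → Bool) (n : ℕ) : mk p n < 2 ^ n := by
  induction n with
  | zero => simp [mk]
  | succ n ih =>
    simp only [mk, pow_succ]
    cases p n <;> simp <;> omega

theorem testBit_mk (p : ℕ → Bool) (n i : ℕ) : (mk p n).testBit i = (decide (i < n) && p i) := by
  induction n with
  | zero => simp [mk]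
  | succ n ih =>
    simp only [mk]
    cases hp : p n with
    | false =>
      simp only [cond_false, zero_add, ih]
      by_cases h : i = n
      · subst h; simp [hp]
      · congr 1
        simp only [decide_eq_decide]
        omega
    | true =>
      simp only [cond_true]
      rcases lt_trichotomy i n with h | rfl | h
      · rw [Nat.testBit_two_pow_add_gt h, ih]
        simp [h, Nat.lt_succ_of_lt h]
      · rw [Nat.testBit_two_pow_add_eq, ih]
        simp [hp]
      · have h1 : 2 ^ n + mk p n < 2 ^ i := by
          have := mk_lt p n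
          have h2 : 2 ^ (n + 1) ≤ 2 ^ i := Nat.pow_le_pow_right (by norm_num) h
          rw [pow_succ] at h2
          omega
        rw [Nat.testBit_lt_two_pow h1]
        have : ¬ i < n + 1 := by omega
        simp [this]

theorem mk_congr {p q : ℕ → Bool} {n : ℕ} (h : ∀ i < n, p i = q i) : mk p n = mk q n := by
  induction n with
  | zero => rfl
  | succ n ih =>
    simp only [mk]
    rw [h n (by omega), ih fun i hi => h i (by omega)]

section
variable {α : Type*} [Primcodable α]

theorem prim_ball {p : α → ℕ → Bool} {n : α → ℕ} (hp : Primrec₂ p) (hn : Primrec n) :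
    Primrec fun a => ball (p a) (n a) := by
  have h : Primrec fun a => Nat.rec (motive := fun _ => Bool) true
      (fun k IH => IH && p a k) (n a) := by
    refine Primrec.nat_rec' (h := fun a x => x.2 && p a x.1) hn (Primrec.const true) ?_
    refine Primrec₂.comp₂ Primrec.and ?_ ?_
    · exact (Primrec.snd.comp Primrec.snd).to₂
    · exact (hp.comp Primrec.fst (Primrec.fst.comp Primrec.snd)).to₂
  refine h.of_eq fun a => ?_
  induction n a with
  | zero => rfl
  | succ k ih => simp only [ball, ← ih]

theorem prim_pow2 : Primrec fun n : ℕ => 2 ^ n := by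
  have h : Primrec fun n : ℕ => Nat.rec (motive := fun _ => ℕ) 1 (fun _ IH => IH * 2) n := by
    refine Primrec.nat_rec' (h := fun _ x => x.2 * 2) Primrec.id (Primrec.const 1) ?_
    exact (Primrec.nat_mul.comp (Primrec.snd.comp Primrec.snd) (Primrec.const 2)).to₂
  refine h.of_eq fun n => ?_
  induction n with
  | zero => rfl
  | succ k ih => simp only [pow_succ, ← ih]

theorem prim_mk {p : α → ℕ → Bool} {n : α → ℕ} (hp : Primrec₂ p) (hn : Primrec n) :
    Primrec fun a => mk (p a) (n a) := by
  have h : Primrec fun a => Nat.rec (motive := fun _ => ℕ) 0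
      (fun k IH => cond (p a k) (2 ^ k) 0 + IH) (n a) := by
    refine Primrec.nat_rec' (h := fun a x => cond (p a x.1) (2 ^ x.1) 0 + x.2) hn
      (Primrec.const 0) ?_
    refine Primrec₂.comp₂ Primrec.nat_add ?_ ?_
    · exact (Primrec.cond (hp.comp Primrec.fst (Primrec.fst.comp Primrec.snd))
        (prim_pow2.comp (Primrec.fst.comp Primrec.snd)) (Primrec.const 0)).to₂
    · exact (Primrec.snd.comp Primrec.snd).to₂
  refine h.of_eq fun a => ?_
  induction n a with
  | zero => rfl
  | succ k ih => simp only [mk, ← ih]

theorem prim_tb : Primrec₂ fun X i : ℕ => X.testBit i := by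
  have h : Primrec₂ fun X i : ℕ => decide (X / 2 ^ i % 2 = 1) := by
    have h1 : PrimrecPred fun x : ℕ × ℕ => x.1 / 2 ^ x.2 % 2 = 1 := by
      refine PrimrecRel.comp Primrec.eq ?_ (Primrec.const 1)
      exact Primrec.nat_mod.comp
        (Primrec.nat_div.comp Primrec.fst (prim_pow2.comp Primrec.snd)) (Primrec.const 2)
    exact h1.decide
  exact h.of_eq fun X i => Nat.testBit_eq_decide_div_mod_eq.symm

end

end R624DI
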