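import Pool.Agent.R624.DI.Eval

/-!
Computability of the evaluator and of schematic validity.
-/

namespace R624DI

open Nat.Partrec (Code)

universe u

/-! ### primitive recursiveness of the clauses -/

section
variable {α : Type*} [Primcodable α] {n D e i p X Y : α → ℕ}

theorem prim_testBit {f g : α → ℕ} (hf : Primrec f) (hg : Primrec g) :
    Primrec fun a => (f a).testBit (g a) := prim_tb.comp hf hg

theorem prim_pair {f g : α → ℕ} (hf : Primrec f) (hg : Primrec g) :
    Primrec fun a => Nat.pair (f a) (g a) := Primrec₂.natPair.comp hf hg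

theorem prim_lt {f g : α → ℕ} (hf : Primrec f) (hg : Primrec g) :
    Primrec fun a => decide (f a < g a) := by
  have h : PrimrecPred fun a => f a < g a := Primrec.nat_lt.comp hf hg
  exact h.decide

theorem prim_u1 {f : α → ℕ} (hf : Primrec f) : Primrec fun a => (f a).unpair.1 :=
  Primrec.fst.comp (Primrec.unpair.comp hf)

theorem prim_u2 {f : α → ℕ} (hf : Primrec f) : Primrec fun a => (f a).unpair.2 :=
  Primrec.snd.comp (Primrec.unpair.comp hf)

theorem prim_and {f g : α → Bool} (hf : Primrec f) (hg : Primrec g) :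
    Primrec fun a => f a && g a := Primrec.and.comp hf hg

theorem prim_or {f g : α → Bool} (hf : Primrec f) (hg : Primrec g) :
    Primrec fun a => f a || g a := Primrec.or.comp hf hg

theorem prim_not {f : α → Bool} (hf : Primrec f) : Primrec fun a => !f a := Primrec.not.comp hf

theorem prim_beqB {f g : α → Bool} (hf : Primrec f) (hg : Primrec g) :
    Primrec fun a => (f a == g a) := by
  have h : Primrec fun a => cond (f a) (g a) (!g a) := Primrec.cond hf hg (prim_not hg)
  exact h.of_eq fun a => by cases f a <;> cases g a <;> rfl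

theorem prim_beqN {f g : α → ℕ} (hf : Primrec f) (hg : Primrec g) :
    Primrec fun a => (f a == g a) := Primrec.beq.comp hf hg

theorem prim_rc {ρ : α → ℕ → ℕ → Bool} (hn : Primrec n)
    (hρ : Primrec fun x : α × ℕ => ρ x.1 x.2.unpair.1 x.2.unpair.2) :
    Primrec fun a => rc (n a) (ρ a) := by
  unfold rc
  refine prim_mk ?_ (prim_pair hn hn)
  have h1 : Primrec fun x : α × ℕ => x.2.unpair.1 := prim_u1 Primrec.snd
  have h2 : Primrec fun x : α × ℕ => x.2.unpair.2 := prim_u2 Primrec.snd
  have h3 : Primrec fun x : α × ℕ => n x.1 := hn.comp Primrec.fst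
  exact prim_and (prim_and (prim_lt h1 h3) (prim_lt h2 h3)) hρ

theorem prim_litN (hn : Primrec n) (hD : Primrec D) (he : Primrec e) (hi : Primrec i)
    (hp : Primrec p) : Primrec fun a => litN (n a) (D a) (e a) (i a) (p a) := by
  unfold litN
  refine prim_mk ?_ hn
  exact prim_testBit (hD.comp Primrec.fst) (prim_pair (hp.comp Primrec.fst)
    (prim_pair (he.comp Primrec.fst) (prim_pair (hi.comp Primrec.fst) Primrec.snd)))

theorem prim_negN (hn : Primrec n) (hX : Primrec X) : Primrec fun a => negN (n a) (X a) := by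
  unfold negN
  refine prim_mk ?_ hn
  exact prim_not (prim_testBit (hX.comp Primrec.fst) Primrec.snd)

theorem prim_andN (hn : Primrec n) (hX : Primrec X) (hY : Primrec Y) :
    Primrec fun a => andN (n a) (X a) (Y a) := by
  unfold andN
  refine prim_mk ?_ hn
  exact prim_and (prim_testBit (hX.comp Primrec.fst) Primrec.snd)
    (prim_testBit (hY.comp Primrec.fst) Primrec.snd)

theorem prim_uniN (hn : Primrec n) (hX : Primrec X) : Primrec fun a => uniN (n a) (X a) := by
  unfold uniN
  refine prim_mk ?_ hn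
  refine prim_ball (p := fun (x : α × ℕ) v => (X x.1).testBit v) ?_ (hn.comp Primrec.fst)
  exact prim_testBit (hX.comp (Primrec.fst.comp Primrec.fst)) Primrec.snd

theorem prim_boxN (hn : Primrec n) (he : Primrec e) (hX : Primrec X) :
    Primrec fun a => boxN (n a) (e a) (X a) := by
  unfold boxN
  refine prim_mk ?_ hn
  refine prim_ball (p := fun (x : α × ℕ) v =>
    !(e x.1).testBit (Nat.pair x.2 v) || (X x.1).testBit v) ?_ (hn.comp Primrec.fst)
  exact prim_or (prim_not (prim_testBit (he.comp (Primrec.fst.comp Primrec.fst))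
    (prim_pair (Primrec.snd.comp Primrec.fst) Primrec.snd)))
    (prim_testBit (hX.comp (Primrec.fst.comp Primrec.fst)) Primrec.snd)

theorem prim_box2N (hn : Primrec n) (he : Primrec e) (hi : Primrec i) (hX : Primrec X) :
    Primrec fun a => box2N (n a) (e a) (i a) (X a) := by
  unfold box2N
  refine prim_mk ?_ hn
  refine prim_ball (p := fun (x : α × ℕ) v =>
    !((e x.1).testBit (Nat.pair x.2 v) && (i x.1).testBit (Nat.pair x.2 v)) ||
      (X x.1).testBit v) ?_ (hn.comp Primrec.fst)
  exact prim_or (prim_not (prim_and (prim_testBit (he.comp (Primrec.fst.comp Primrec.fst))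
    (prim_pair (Primrec.snd.comp Primrec.fst) Primrec.snd))
    (prim_testBit (hi.comp (Primrec.fst.comp Primrec.fst))
    (prim_pair (Primrec.snd.comp Primrec.fst) Primrec.snd))))
    (prim_testBit (hX.comp (Primrec.fst.comp Primrec.fst)) Primrec.snd)

theorem prim_annN (hn : Primrec n) (he : Primrec e) (hX : Primrec X) :
    Primrec fun a => annN (n a) (e a) (X a) := by
  unfold annN
  refine prim_rc hn ?_
  have h1 : Primrec fun x : α × ℕ => x.2.unpair.1 := prim_u1 Primrec.snd
  have h2 : Primrec fun x : α × ℕ => x.2.unpair.2 := prim_u2 Primrec.snd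
  exact prim_and (prim_testBit (he.comp Primrec.fst) (prim_pair h1 h2))
    (prim_beqB (prim_testBit (hX.comp Primrec.fst) h1) (prim_testBit (hX.comp Primrec.fst) h2))

theorem prim_capN (hn : Primrec n) (he : Primrec e) (hi : Primrec i) :
    Primrec fun a => capN (n a) (e a) (i a) := by
  unfold capN
  refine prim_rc hn ?_
  have h1 : Primrec fun x : α × ℕ => x.2.unpair.1 := prim_u1 Primrec.snd
  have h2 : Primrec fun x : α × ℕ => x.2.unpair.2 := prim_u2 Primrec.snd
  exact prim_and (prim_testBit (he.comp Primrec.fst) (prim_pair h1 h2))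
    (prim_testBit (hi.comp Primrec.fst) (prim_pair h1 h2))

theorem prim_isEq (hn : Primrec n) (he : Primrec e) : Primrec fun a => isEq (n a) (e a) := by
  unfold isEq
  refine prim_and (prim_and ?_ ?_) (prim_and ?_ ?_)
  · refine prim_ball ?_ hn
    exact prim_testBit (he.comp Primrec.fst) (prim_pair Primrec.snd Primrec.snd)
  · refine prim_ball ?_ hn
    refine prim_ball (p := fun (x : α × ℕ) t =>
      !(e x.1).testBit (Nat.pair x.2 t) || (e x.1).testBit (Nat.pair t x.2)) ?_
      (hn.comp Primrec.fst)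
    exact prim_or (prim_not (prim_testBit (he.comp (Primrec.fst.comp Primrec.fst))
      (prim_pair (Primrec.snd.comp Primrec.fst) Primrec.snd)))
      (prim_testBit (he.comp (Primrec.fst.comp Primrec.fst))
      (prim_pair Primrec.snd (Primrec.snd.comp Primrec.fst)))
  · refine prim_ball ?_ hn
    refine prim_ball (p := fun (x : α × ℕ) t => ball (fun r =>
      !((e x.1).testBit (Nat.pair x.2 t) && (e x.1).testBit (Nat.pair t r)) ||
        (e x.1).testBit (Nat.pair x.2 r)) (n x.1)) ?_ (hn.comp Primrec.fst)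
    refine prim_ball (p := fun (x : (α × ℕ) × ℕ) r =>
      !((e x.1.1).testBit (Nat.pair x.1.2 x.2) && (e x.1.1).testBit (Nat.pair x.2 r)) ||
        (e x.1.1).testBit (Nat.pair x.1.2 r)) ?_ (hn.comp (Primrec.fst.comp Primrec.fst))
    have hE : Primrec fun x : ((α × ℕ) × ℕ) × ℕ => e x.1.1.1 :=
      he.comp (Primrec.fst.comp (Primrec.fst.comp Primrec.fst))
    have hs : Primrec fun x : ((α × ℕ) × ℕ) × ℕ => x.1.1.2 :=
      Primrec.snd.comp (Primrec.fst.comp Primrec.fst)
    have ht : Primrec fun x : ((α × ℕ) × ℕ) × ℕ => x.1.2 := Primrec.snd.comp Primrec.fst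
    exact prim_or (prim_not (prim_and (prim_testBit hE (prim_pair hs ht))
      (prim_testBit hE (prim_pair ht Primrec.snd)))) (prim_testBit hE (prim_pair hs Primrec.snd))
  · refine prim_beqN (prim_rc hn ?_) he
    exact prim_testBit (he.comp Primrec.fst)
      (prim_pair (prim_u1 Primrec.snd) (prim_u2 Primrec.snd))

end

/-! ### the recursion -/

def pb (x : ℕ) : ℕ := x.unpair.1 / 11
def pt (x : ℕ) : ℕ := x.unpair.1 % 11
def pn (x : ℕ) : ℕ := x.unpair.2.unpair.1
def pD (x : ℕ) : ℕ := x.unpair.2.unpair.2.unpair.1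
def pe (x : ℕ) : ℕ := x.unpair.2.unpair.2.unpair.2.unpair.1
def pi (x : ℕ) : ℕ := x.unpair.2.unpair.2.unpair.2.unpair.2

/-- packing -/
def pk (a n D e i : ℕ) : ℕ := Nat.pair a (Nat.pair n (Nat.pair D (Nat.pair e i)))

section
variable {α : Type*} [Primcodable α] {f : α → ℕ}

theorem prim_pb (hf : Primrec f) : Primrec fun a => pb (f a) :=
  Primrec.nat_div.comp (prim_u1 hf) (Primrec.const 11)
theorem prim_pt (hf : Primrec f) : Primrec fun a => pt (f a) :=
  Primrec.nat_mod.comp (prim_u1 hf) (Primrec.const 11)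
theorem prim_pn (hf : Primrec f) : Primrec fun a => pn (f a) := prim_u1 (prim_u2 hf)
theorem prim_pD (hf : Primrec f) : Primrec fun a => pD (f a) := prim_u1 (prim_u2 (prim_u2 hf))
theorem prim_pe (hf : Primrec f) : Primrec fun a => pe (f a) :=
  prim_u1 (prim_u2 (prim_u2 (prim_u2 hf)))
theorem prim_pi (hf : Primrec f) : Primrec fun a => pi (f a) :=
  prim_u2 (prim_u2 (prim_u2 (prim_u2 hf)))

theorem prim_pk {a n D e i : α → ℕ} (ha : Primrec a) (hn : Primrec n) (hD : Primrec D)
    (he : Primrec e) (hi : Primrec i) : Primrec fun x => pk (a x) (n x) (D x) (e x) (i x) :=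
  prim_pair ha (prim_pair hn (prim_pair hD (prim_pair he hi)))

/-- case distinction on a number -/
theorem prim_case {k : ℕ} {t g h : α → ℕ} (ht : Primrec t) (hg : Primrec g) (hh : Primrec h) :
    Primrec fun a => cond (t a == k) (g a) (h a) :=
  Primrec.cond (prim_beqN ht (Primrec.const k)) hg hh

end

/-- argument of the first recursive call -/
def g1 (x : ℕ) : ℕ :=
  pk (cond (pt x == 2) (pb x).unpair.1 (cond (pt x == 7) (pb x).unpair.1
    (cond (pt x == 8) (pb x).unpair.1 (pb x)))) (pn x) (pD x) (pe x) (pi x)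

/-- argument of the second recursive call -/
def g2 (x X : ℕ) : ℕ :=
  cond (pt x == 2) (pk (pb x).unpair.2 (pn x) (pD x) (pe x) (pi x))
  (cond (pt x == 7) (pk (pb x).unpair.2 (pn x) (pD x) (annN (pn x) (pe x) X) (pi x))
  (cond (pt x == 8) (pk (pb x).unpair.2 (pn x) (pD x) (pe x) (annN (pn x) (pi x) X))
  (cond (pt x == 9) (pk (pb x) (pn x) (pD x) (capN (pn x) (pe x) (pi x)) (pi x))
  (pk (pb x) (pn x) (pD x) (pe x) (capN (pn x) (pe x) (pi x))))))

/-- final step -/
def fin (x X Y : ℕ) : ℕ :=
  cond (pt x == 0) (litN (pn x) (pD x) (pe x) (pi x) (pb x))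
  (cond (pt x == 1) (negN (pn x) X)
  (cond (pt x == 2) (andN (pn x) X Y)
  (cond (pt x == 3) (uniN (pn x) X)
  (cond (pt x == 4) (boxN (pn x) (pe x) X)
  (cond (pt x == 5) (boxN (pn x) (pi x) X)
  (cond (pt x == 6) (box2N (pn x) (pe x) (pi x) X) Y))))))

/-- is there a first call -/
def c1 (x : ℕ) : Bool := !((pt x == 0) || ((pt x == 9) || (pt x == 10)))

/-- is there a second call -/
def c2 (x : ℕ) : Bool :=
  (pt x == 2) || ((pt x == 7) || ((pt x == 8) || ((pt x == 9) || (pt x == 10))))

theorem prim_g1 : Primrec g1 := by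
  have hx : Primrec fun x : ℕ => x := Primrec.id
  have ht := prim_pt hx
  have hb := prim_pb hx
  exact prim_pk (prim_case ht (prim_u1 hb) (prim_case ht (prim_u1 hb)
    (prim_case ht (prim_u1 hb) hb))) (prim_pn hx) (prim_pD hx) (prim_pe hx) (prim_pi hx)

theorem prim_g2 : Primrec₂ g2 := by
  have hx : Primrec fun x : ℕ × ℕ => x.1 := Primrec.fst
  have hX : Primrec fun x : ℕ × ℕ => x.2 := Primrec.snd
  have ht := prim_pt hx
  have hb := prim_pb hx
  have hn := prim_pn hx
  have hD := prim_pD hx
  have he := prim_pe hx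
  have hi := prim_pi hx
  exact prim_case ht (prim_pk (prim_u2 hb) hn hD he hi)
    (prim_case ht (prim_pk (prim_u2 hb) hn hD (prim_annN hn he hX) hi)
    (prim_case ht (prim_pk (prim_u2 hb) hn hD he (prim_annN hn hi hX))
    (prim_case ht (prim_pk hb hn hD (prim_capN hn he hi) hi)
    (prim_pk hb hn hD he (prim_capN hn he hi)))))

theorem prim_fin : Primrec fun x : ℕ × ℕ × ℕ => fin x.1 x.2.1 x.2.2 := by
  have hx : Primrec fun x : ℕ × ℕ × ℕ => x.1 := Primrec.fst
  have hX : Primrec fun x : ℕ × ℕ × ℕ => x.2.1 := Primrec.fst.comp Primrec.snd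
  have hY : Primrec fun x : ℕ × ℕ × ℕ => x.2.2 := Primrec.snd.comp Primrec.snd
  have ht := prim_pt hx
  have hb := prim_pb hx
  have hn := prim_pn hx
  have hD := prim_pD hx
  have he := prim_pe hx
  have hi := prim_pi hx
  exact prim_case ht (prim_litN hn hD he hi hb)
    (prim_case ht (prim_negN hn hX)
    (prim_case ht (prim_andN hn hX hY)
    (prim_case ht (prim_uniN hn hX)
    (prim_case ht (prim_boxN hn he hX)
    (prim_case ht (prim_boxN hn hi hX)
    (prim_case ht (prim_box2N hn he hi hX) hY))))))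

theorem prim_c1 : Primrec c1 := by
  have ht := prim_pt (Primrec.id (α := ℕ))
  have h : ∀ k, Primrec fun x => (pt x == k) := fun k => prim_beqN ht (Primrec.const k)
  exact prim_not (prim_or (h 0) (prim_or (h 9) (h 10)))

theorem prim_c2 : Primrec c2 := by
  have ht := prim_pt (Primrec.id (α := ℕ))
  have h : ∀ k, Primrec fun x => (pt x == k) := fun k => prim_beqN ht (Primrec.const k)
  exact prim_or (h 2) (prim_or (h 7) (prim_or (h 8) (prim_or (h 9) (h 10))))

/-- the recursion operator -/
def FF (c : Code) (x : ℕ) : Part ℕ :=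
  (cond (c1 x) (c.eval (g1 x)) (Part.some 0)).bind fun X =>
    (cond (c2 x) (c.eval (g2 x X)) (Part.some 0)).bind fun Y => Part.some (fin x X Y)

theorem partrec_FF : Partrec₂ FF := by
  have hev : ∀ {β : Type} [Primcodable β] {c : β → Code} {f : β → ℕ},
      Computable c → Computable f → Partrec fun b => (c b).eval (f b) :=
    fun hc hf => Nat.Partrec.Code.eval_part.comp hc hf
  unfold FF
  refine Partrec.bind (f := fun a : Code × ℕ => cond (c1 a.2) (a.1.eval (g1 a.2)) (Part.some 0))
    (g := fun (a : Code × ℕ) X => (cond (c2 a.2) (a.1.eval (g2 a.2 X)) (Part.some 0)).bind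
      fun Y => Part.some (fin a.2 X Y)) ?_ ?_
  · refine Partrec.cond (prim_c1.to_comp.comp Computable.snd) ?_ (Computable.const 0)
    exact hev Computable.fst (prim_g1.to_comp.comp Computable.snd)
  · refine Partrec.bind (f := fun a : (Code × ℕ) × ℕ =>
        cond (c2 a.1.2) (a.1.1.eval (g2 a.1.2 a.2)) (Part.some 0))
      (g := fun (a : (Code × ℕ) × ℕ) Y => Part.some (fin a.1.2 a.2 Y)) ?_ ?_
    · refine Partrec.cond (prim_c2.to_comp.comp (Computable.snd.comp Computable.fst)) ?_
        (Computable.const 0)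
      exact hev (Computable.fst.comp Computable.fst)
        (prim_g2.to_comp.comp (Computable.snd.comp Computable.fst) Computable.snd)
    · have hp : Computable fun a : ((Code × ℕ) × ℕ) × ℕ => (a.1.1.2, a.1.2, a.2) :=
        (Computable.snd.comp (Computable.fst.comp Computable.fst)).pair
          ((Computable.snd.comp Computable.fst).pair Computable.snd)
      have h := prim_fin.to_comp.comp hp
      exact h.partrec

theorem pk_simp (b t n D e i : ℕ) (ht : t < 11) :
    pt (pk (11 * b + t) n D e i) = t ∧ pb (pk (11 * b + t) n D e i) = b ∧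
    pn (pk (11 * b + t) n D e i) = n ∧ pD (pk (11 * b + t) n D e i) = D ∧
    pe (pk (11 * b + t) n D e i) = e ∧ pi (pk (11 * b + t) n D e i) = i := by
  simp only [pt, pb, pn, pD, pe, pi, pk, Nat.unpair_pair, and_self, and_true]
  omega

theorem exists_code : ∃ c : Code, ∀ (φ : Form) (n D e i : ℕ),
    c.eval (pk (code φ) n D e i) = Part.some (evs n D φ e i) := by
  obtain ⟨c, hc⟩ := Nat.Partrec.Code.fixed_point₂ partrec_FF
  refine ⟨c, fun φ n D => ?_⟩
  induction φ with
  | var p =>
    intro e i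
    obtain ⟨h1, h2, h3, h4, h5, h6⟩ := pk_simp p 0 n D e i (by norm_num)
    rw [hc]
    simp only [Nat.add_zero] at h1 h2 h3 h4 h5 h6
    simp [FF, c1, c2, fin, code, h1, h2, h3, h4, h5, h6, evs]
  | neg φ ih =>
    intro e i
    obtain ⟨h1, h2, h3, h4, h5, h6⟩ := pk_simp (code φ) 1 n D e i (by norm_num)
    rw [hc]
    simp [FF, c1, c2, fin, g1, code, h1, h2, h3, h4, h5, h6, evs, ih]
  | and φ ψ ih1 ih2 =>
    intro e i
    obtain ⟨h1, h2, h3, h4, h5, h6⟩ :=
      pk_simp (Nat.pair (code φ) (code ψ)) 2 n D e i (by norm_num)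
    rw [hc]
    simp [FF, c1, c2, fin, g1, g2, code, h1, h2, h3, h4, h5, h6, evs, ih1, ih2]
  | U φ ih =>
    intro e i
    obtain ⟨h1, h2, h3, h4, h5, h6⟩ := pk_simp (code φ) 3 n D e i (by norm_num)
    rw [hc]
    simp [FF, c1, c2, fin, g1, code, h1, h2, h3, h4, h5, h6, evs, ih]
  | K φ ih =>
    intro e i
    obtain ⟨h1, h2, h3, h4, h5, h6⟩ := pk_simp (code φ) 4 n D e i (by norm_num)
    rw [hc]
    simp [FF, c1, c2, fin, g1, code, h1, h2, h3, h4, h5, h6, evs, ih]
  | Q φ ih =>
    intro e i
    obtain ⟨h1, h2, h3, h4, h5, h6⟩ := pk_simp (code φ) 5 n D e i (by norm_num)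
    rw [hc]
    simp [FF, c1, c2, fin, g1, code, h1, h2, h3, h4, h5, h6, evs, ih]
  | R φ ih =>
    intro e i
    obtain ⟨h1, h2, h3, h4, h5, h6⟩ := pk_simp (code φ) 6 n D e i (by norm_num)
    rw [hc]
    simp [FF, c1, c2, fin, g1, code, h1, h2, h3, h4, h5, h6, evs, ih]
  | ann φ ψ ih1 ih2 =>
    intro e i
    obtain ⟨h1, h2, h3, h4, h5, h6⟩ :=
      pk_simp (Nat.pair (code φ) (code ψ)) 7 n D e i (by norm_num)
    rw [hc]
    simp [FF, c1, c2, fin, g1, g2, code, h1, h2, h3, h4, h5, h6, evs, ih1, ih2]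
  | ask φ ψ ih1 ih2 =>
    intro e i
    obtain ⟨h1, h2, h3, h4, h5, h6⟩ :=
      pk_simp (Nat.pair (code φ) (code ψ)) 8 n D e i (by norm_num)
    rw [hc]
    simp [FF, c1, c2, fin, g1, g2, code, h1, h2, h3, h4, h5, h6, evs, ih1, ih2]
  | res ψ ih =>
    intro e i
    obtain ⟨h1, h2, h3, h4, h5, h6⟩ := pk_simp (code ψ) 9 n D e i (by norm_num)
    rw [hc]
    simp [FF, c1, c2, fin, g1, g2, code, h1, h2, h3, h4, h5, h6, evs, ih]
  | ref ψ ih =>
    intro e i
    obtain ⟨h1, h2, h3, h4, h5, h6⟩ := pk_simp (code ψ) 10 n D e i (by norm_num)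
    rw [hc]
    simp [FF, c1, c2, fin, g1, g2, code, h1, h2, h3, h4, h5, h6, evs, ih]

/-! ### the numbering is a bijection -/

theorem code_surj : Function.Surjective code := by
  intro n
  induction n using Nat.strong_induction_on with
  | _ n ih =>
    have hn : n = 11 * (n / 11) + n % 11 := (Nat.div_add_mod n 11).symm
    have ht : n % 11 < 11 := Nat.mod_lt _ (by norm_num)
    have hlt : n % 11 ≠ 0 → n / 11 < n := by intro h; omega
    have h1 : n % 11 ≠ 0 → (n / 11).unpair.1 < n := fun h =>
      lt_of_le_of_lt (Nat.unpair_left_le _) (hlt h)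
    have h2 : n % 11 ≠ 0 → (n / 11).unpair.2 < n := fun h =>
      lt_of_le_of_lt (Nat.unpair_right_le _) (hlt h)
    by_cases h0 : n % 11 = 0
    · exact ⟨.var (n / 11), by simp only [code]; omega⟩
    obtain ⟨φ, hφ⟩ := ih _ (hlt h0)
    obtain ⟨φ1, hφ1⟩ := ih _ (h1 h0)
    obtain ⟨φ2, hφ2⟩ := ih _ (h2 h0)
    have hp : Nat.pair (n / 11).unpair.1 (n / 11).unpair.2 = n / 11 := Nat.pair_unpair _
    have hc : n % 11 = 1 ∨ n % 11 = 2 ∨ n % 11 = 3 ∨ n % 11 = 4 ∨ n % 11 = 5 ∨ n % 11 = 6 ∨
      n % 11 = 7 ∨ n % 11 = 8 ∨ n % 11 = 9 ∨ n % 11 = 10 := by omega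
    rcases hc with h | h | h | h | h | h | h | h | h | h
    · exact ⟨.neg φ, by simp only [code, hφ]; omega⟩
    · exact ⟨.and φ1 φ2, by simp only [code, hφ1, hφ2, hp]; omega⟩
    · exact ⟨.U φ, by simp only [code, hφ]; omega⟩
    · exact ⟨.K φ, by simp only [code, hφ]; omega⟩
    · exact ⟨.Q φ, by simp only [code, hφ]; omega⟩
    · exact ⟨.R φ, by simp only [code, hφ]; omega⟩
    · exact ⟨.ann φ1 φ2, by simp only [code, hφ1, hφ2, hp]; omega⟩
    · exact ⟨.ask φ1 φ2, by simp only [code, hφ1, hφ2, hp]; omega⟩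
    · exact ⟨.res φ, by simp only [code, hφ]; omega⟩
    · exact ⟨.ref φ, by simp only [code, hφ]; omega⟩

theorem code_inj : Function.Injective code := by
  intro φ
  induction φ with
  | var p => intro ψ h; cases ψ <;> simp only [code] at h <;> first | omega | (congr 1; omega)
  | neg φ ih =>
    intro ψ h; cases ψ <;> simp only [code] at h <;> first | omega | (congr 1; exact ih (by omega))
  | U φ ih =>
    intro ψ h; cases ψ <;> simp only [code] at h <;> first | omega | (congr 1; exact ih (by omega))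
  | K φ ih =>
    intro ψ h; cases ψ <;> simp only [code] at h <;> first | omega | (congr 1; exact ih (by omega))
  | Q φ ih =>
    intro ψ h; cases ψ <;> simp only [code] at h <;> first | omega | (congr 1; exact ih (by omega))
  | R φ ih =>
    intro ψ h; cases ψ <;> simp only [code] at h <;> first | omega | (congr 1; exact ih (by omega))
  | res φ ih =>
    intro ψ h; cases ψ <;> simp only [code] at h <;> first | omega | (congr 1; exact ih (by omega))
  | ref φ ih =>
    intro ψ h; cases ψ <;> simp only [code] at h <;> first | omega | (congr 1; exact ih (by omega))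
  | and φ ψ ih1 ih2 =>
    intro χ h
    cases χ <;> simp only [code] at h <;> first | omega | skip
    rename_i a b
    have h0 : Nat.pair (code φ) (code ψ) = Nat.pair (code a) (code b) := by omega
    have h1 := Nat.pair_eq_pair.1 h0
    rw [ih1 h1.1, ih2 h1.2]
  | ann φ ψ ih1 ih2 =>
    intro χ h
    cases χ <;> simp only [code] at h <;> first | omega | skip
    rename_i a b
    have h0 : Nat.pair (code φ) (code ψ) = Nat.pair (code a) (code b) := by omega
    have h1 := Nat.pair_eq_pair.1 h0
    rw [ih1 h1.1, ih2 h1.2]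
  | ask φ ψ ih1 ih2 =>
    intro χ h
    cases χ <;> simp only [code] at h <;> first | omega | skip
    rename_i a b
    have h0 : Nat.pair (code φ) (code ψ) = Nat.pair (code a) (code b) := by omega
    have h1 := Nat.pair_eq_pair.1 h0
    rw [ih1 h1.1, ih2 h1.2]

end R624DI
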