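import Mathlib

/-!
Definitions for MP_61152a_lc: the dynamic logic of information and issues, its models, truth,
validity, uniform substitution and schematic validity, and a bijective numbering of formulas.
-/

namespace R624DI

universe u

/-- Formulas of the dynamic logic of information and issues. -/
inductive Form : Type
  /-- proposition letter -/
  | var : ℕ → Form
  | neg : Form → Form
  | and : Form → Form → Form
  /-- universal modality -/
  | U : Form → Form
  /-- knowledge modality -/
  | K : Form → Form
  /-- issue modality -/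
  | Q : Form → Form
  /-- resolution modality (for the intersection of the two relations) -/
  | R : Form → Form
  /-- `[!φ]ψ` -/
  | ann : Form → Form → Form
  /-- `[?φ]ψ` -/
  | ask : Form → Form → Form
  /-- `[!]ψ` -/
  | res : Form → Form
  /-- `[?]ψ` -/
  | ref : Form → Form

/-- `truth V φ e i w`: the formula `φ` is true at the world `w` of the model with valuation `V`,
epistemic relation `e` and issue relation `i`. -/
def truth {W : Type u} (V : ℕ → W → Prop) :
    Form → (W → W → Prop) → (W → W → Prop) → W → Prop
  | .var p, _, _, w => V p w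
  | .neg φ, e, i, w => ¬ truth V φ e i w
  | .and φ ψ, e, i, w => truth V φ e i w ∧ truth V ψ e i w
  | .U φ, e, i, _ => ∀ v, truth V φ e i v
  | .K φ, e, i, w => ∀ v, e w v → truth V φ e i v
  | .Q φ, e, i, w => ∀ v, i w v → truth V φ e i v
  | .R φ, e, i, w => ∀ v, e w v ∧ i w v → truth V φ e i v
  | .ann φ ψ, e, i, w =>
      truth V ψ (fun s t => e s t ∧ (truth V φ e i s ↔ truth V φ e i t)) i w
  | .ask φ ψ, e, i, w =>
      truth V ψ e (fun s t => i s t ∧ (truth V φ e i s ↔ truth V φ e i t)) w
  | .res ψ, e, i, w => truth V ψ (fun s t => e s t ∧ i s t) i w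
  | .ref ψ, e, i, w => truth V ψ e (fun s t => e s t ∧ i s t) w

/-- Epistemic issue models. -/
structure Model where
  /-- worlds -/
  W : Type u
  /-- the epistemic equivalence relation -/
  e : W → W → Prop
  /-- the issue equivalence relation -/
  i : W → W → Prop
  /-- the valuation -/
  V : ℕ → W → Prop
  he : Equivalence e
  hi : Equivalence i

/-- Truth at every world of every epistemic issue model. -/
def Valid (φ : Form) : Prop :=
  ∀ (M : Model.{u}) (w : M.W), truth M.V φ M.e M.i w

/-- Uniform substitution of formulas for proposition letters. -/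
def subst (σ : ℕ → Form) : Form → Form
  | .var p => σ p
  | .neg φ => .neg (subst σ φ)
  | .and φ ψ => .and (subst σ φ) (subst σ ψ)
  | .U φ => .U (subst σ φ)
  | .K φ => .K (subst σ φ)
  | .Q φ => .Q (subst σ φ)
  | .R φ => .R (subst σ φ)
  | .ann φ ψ => .ann (subst σ φ) (subst σ ψ)
  | .ask φ ψ => .ask (subst σ φ) (subst σ ψ)
  | .res ψ => .res (subst σ ψ)
  | .ref ψ => .ref (subst σ ψ)

/-- Schematic validity: all substitution instances are valid. -/
def SchemValid (φ : Form) : Prop :=
  ∀ σ : ℕ → Form, Valid.{u} (subst σ φ)

/-- The numbering of formulas. -/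
def code : Form → ℕ
  | .var p => 11 * p
  | .neg φ => 11 * code φ + 1
  | .and φ ψ => 11 * Nat.pair (code φ) (code ψ) + 2
  | .U φ => 11 * code φ + 3
  | .K φ => 11 * code φ + 4
  | .Q φ => 11 * code φ + 5
  | .R φ => 11 * code φ + 6
  | .ann φ ψ => 11 * Nat.pair (code φ) (code ψ) + 7
  | .ask φ ψ => 11 * Nat.pair (code φ) (code ψ) + 8
  | .res ψ => 11 * code ψ + 9
  | .ref ψ => 11 * code ψ + 10

end R624DI
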