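import Pool.Agent.R624.DI.Sub
import Pool.Agent.R624.DI.Bits

/-!
A numerical evaluator for the generalised semantics on `Fin n`.
-/

namespace R624DI

universe u

/-- code of a binary relation below `n` -/
def rc (n : ℕ) (ρ : ℕ → ℕ → Bool) : ℕ :=
  mk (fun z => (decide (z.unpair.1 < n) && decide (z.unpair.2 < n)) && ρ z.unpair.1 z.unpair.2)
    (Nat.pair n n)

theorem pair_lt_pair {a b c d : ℕ} (h : a < c) (h' : b < d) : Nat.pair a b < Nat.pair c d :=
  (Nat.pair_lt_pair_left b h).trans (Nat.pair_lt_pair_right c h')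

theorem pair_le_pair {a b c d : ℕ} (h : a ≤ c) (h' : b ≤ d) : Nat.pair a b ≤ Nat.pair c d := by
  rcases h.lt_or_eq with h | rfl
  · rcases h'.lt_or_eq with h' | rfl
    · exact (pair_lt_pair h h').le
    · exact (Nat.pair_lt_pair_left b h).le
  · rcases h'.lt_or_eq with h' | rfl
    · exact (Nat.pair_lt_pair_right a h').le
    · exact le_rfl

theorem rc_tb (n : ℕ) (ρ : ℕ → ℕ → Bool) {s t : ℕ} (hs : s < n) (ht : t < n) :
    (rc n ρ).testBit (Nat.pair s t) = ρ s t := by
  simp [rc, testBit_mk, hs, ht, pair_lt_pair hs ht]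

theorem rc_congr {n : ℕ} {ρ τ : ℕ → ℕ → Bool} (h : ∀ s < n, ∀ t < n, ρ s t = τ s t) :
    rc n ρ = rc n τ := by
  apply mk_congr
  intro z _
  by_cases h1 : z.unpair.1 < n
  · by_cases h2 : z.unpair.2 < n
    · simp only [h1, h2, h _ h1 _ h2]
    · simp [h2]
  · simp [h1]

/-- evaluator clauses -/
def litN (n D e i p : ℕ) : ℕ :=
  mk (fun w => D.testBit (Nat.pair p (Nat.pair e (Nat.pair i w)))) n
def negN (n X : ℕ) : ℕ := mk (fun w => !X.testBit w) n
def andN (n X Y : ℕ) : ℕ := mk (fun w => X.testBit w && Y.testBit w) n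
def uniN (n X : ℕ) : ℕ := mk (fun _ => ball (fun v => X.testBit v) n) n
def boxN (n e X : ℕ) : ℕ :=
  mk (fun w => ball (fun v => !e.testBit (Nat.pair w v) || X.testBit v) n) n
def box2N (n e i X : ℕ) : ℕ :=
  mk (fun w => ball (fun v =>
    !(e.testBit (Nat.pair w v) && i.testBit (Nat.pair w v)) || X.testBit v) n) n
def annN (n e X : ℕ) : ℕ :=
  rc n fun s t => e.testBit (Nat.pair s t) && (X.testBit s == X.testBit t)
def capN (n e i : ℕ) : ℕ :=
  rc n fun s t => e.testBit (Nat.pair s t) && i.testBit (Nat.pair s t)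

/-- evaluator: the truth set of a formula -/
def evs (n D : ℕ) : Form → ℕ → ℕ → ℕ
  | .var p, e, i => litN n D e i p
  | .neg φ, e, i => negN n (evs n D φ e i)
  | .and φ ψ, e, i => andN n (evs n D φ e i) (evs n D ψ e i)
  | .U φ, e, i => uniN n (evs n D φ e i)
  | .K φ, e, i => boxN n e (evs n D φ e i)
  | .Q φ, e, i => boxN n i (evs n D φ e i)
  | .R φ, e, i => box2N n e i (evs n D φ e i)
  | .ann φ ψ, e, i => evs n D ψ (annN n e (evs n D φ e i)) i
  | .ask φ ψ, e, i => evs n D ψ e (annN n i (evs n D φ e i))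
  | .res ψ, e, i => evs n D ψ (capN n e i) i
  | .ref ψ, e, i => evs n D ψ e (capN n e i)

/-- decoding of relations -/
def dr (n e : ℕ) : Rl (Fin n) := fun s t => e.testBit (Nat.pair s t) = true

open Classical in
/-- encoding of relations -/
noncomputable def en {n : ℕ} (ρ : Rl (Fin n)) : ℕ :=
  rc n fun s t => decide (∃ (hs : s < n) (ht : t < n), ρ ⟨s, hs⟩ ⟨t, ht⟩)

theorem dr_en {n : ℕ} (ρ : Rl (Fin n)) : dr n (en ρ) = ρ := by
  funext s t
  simp only [dr, en]
  rw [rc_tb n _ s.2 t.2]
  simp

theorem en_lt {n : ℕ} (ρ : Rl (Fin n)) : en ρ < 2 ^ Nat.pair n n := mk_lt _ _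

theorem beq_iff (a b : Bool) : ((a == b) = true) ↔ (a = true ↔ b = true) := by
  cases a <;> cases b <;> simp

open Classical in
theorem en_dr_rc (n : ℕ) (ρ : ℕ → ℕ → Bool) : en (dr n (rc n ρ)) = rc n ρ := by
  apply rc_congr
  intro s hs t ht
  rw [Bool.eq_iff_iff, decide_eq_true_iff]
  constructor
  · rintro ⟨_, _, h⟩
    simp only [dr, rc_tb n ρ hs ht] at h
    exact h
  · intro h
    refine ⟨hs, ht, ?_⟩
    simp only [dr, rc_tb n ρ hs ht]
    exact h

theorem en_dr_ann (n e X : ℕ) : en (dr n (annN n e X)) = annN n e X := en_dr_rc _ _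

theorem en_dr_cap (n e i : ℕ) : en (dr n (capN n e i)) = capN n e i := en_dr_rc _ _

/-- the generalised valuation coded by `D` -/
noncomputable def VD (n D : ℕ) : ℕ → Rl (Fin n) → Rl (Fin n) → Fin n → Prop :=
  fun p e i w => D.testBit (Nat.pair p (Nat.pair (en e) (Nat.pair (en i) w))) = true

theorem sem (n D : ℕ) (φ : Form) : ∀ e i, en (dr n e) = e → en (dr n i) = i → ∀ w : Fin n,
    ((evs n D φ e i).testBit w = true ↔ truthG (VD n D) φ (dr n e) (dr n i) w) := by
  induction φ with
  | var p =>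
    intro e i he hi w
    simp only [evs, litN, testBit_mk, truthG, VD, he, hi, w.2, decide_true, Bool.true_and]
  | neg φ ih =>
    intro e i he hi w
    simp only [evs, negN, testBit_mk, truthG, w.2, decide_true, Bool.true_and, ← ih e i he hi w]
    simp
  | and φ ψ ih1 ih2 =>
    intro e i he hi w
    simp only [evs, andN, testBit_mk, truthG, w.2, decide_true, Bool.true_and,
      ← ih1 e i he hi w, ← ih2 e i he hi w, Bool.and_eq_true]
  | U φ ih =>
    intro e i he hi w
    simp only [evs, uniN, testBit_mk, truthG, w.2, decide_true, Bool.true_and, ball_iff]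
    exact ⟨fun h v => (ih e i he hi v).1 (h v v.2), fun h v hv => (ih e i he hi ⟨v, hv⟩).2 (h _)⟩
  | K φ ih =>
    intro e i he hi w
    simp only [evs, boxN, testBit_mk, truthG, w.2, decide_true, Bool.true_and, ball_iff,
      Bool.or_eq_true, Bool.not_eq_true']
    constructor
    · intro h v hv
      rw [← ih e i he hi v]
      rcases h v v.2 with h1 | h1
      · simp only [dr] at hv; rw [hv] at h1; cases h1
      · exact h1
    · intro h v hv
      by_cases h1 : e.testBit (Nat.pair w v) = true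
      · exact Or.inr ((ih e i he hi ⟨v, hv⟩).2 (h ⟨v, hv⟩ h1))
      · exact Or.inl (by simpa using h1)
  | Q φ ih =>
    intro e i he hi w
    simp only [evs, boxN, testBit_mk, truthG, w.2, decide_true, Bool.true_and, ball_iff,
      Bool.or_eq_true, Bool.not_eq_true']
    constructor
    · intro h v hv
      rw [← ih e i he hi v]
      rcases h v v.2 with h1 | h1
      · simp only [dr] at hv; rw [hv] at h1; cases h1
      · exact h1
    · intro h v hv
      by_cases h1 : i.testBit (Nat.pair w v) = true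
      · exact Or.inr ((ih e i he hi ⟨v, hv⟩).2 (h ⟨v, hv⟩ h1))
      · exact Or.inl (by simpa using h1)
  | R φ ih =>
    intro e i he hi w
    simp only [evs, box2N, testBit_mk, truthG, w.2, decide_true, Bool.true_and, ball_iff,
      Bool.or_eq_true, Bool.not_eq_true']
    constructor
    · rintro h v ⟨hv, hv'⟩
      rw [← ih e i he hi v]
      rcases h v v.2 with h1 | h1
      · simp only [dr] at hv hv'; rw [hv, hv'] at h1; cases h1
      · exact h1
    · intro h v hv
      by_cases h1 : (e.testBit (Nat.pair w v) && i.testBit (Nat.pair w v)) = true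
      · rw [Bool.and_eq_true] at h1
        exact Or.inr ((ih e i he hi ⟨v, hv⟩).2 (h ⟨v, hv⟩ h1))
      · exact Or.inl (by simpa using h1)
  | ann φ ψ ih1 ih2 =>
    intro e i he hi w
    simp only [evs, truthG]
    have h1 : dr n (annN n e (evs n D φ e i)) = fun s t => dr n e s t ∧
        (truthG (VD n D) φ (dr n e) (dr n i) s ↔ truthG (VD n D) φ (dr n e) (dr n i) t) := by
      funext s t
      rw [← ih1 e i he hi s, ← ih1 e i he hi t]
      simp only [dr, annN, rc_tb n _ s.2 t.2, Bool.and_eq_true, beq_iff]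
    rw [ih2 _ i (en_dr_ann ..) hi w, h1]
  | ask φ ψ ih1 ih2 =>
    intro e i he hi w
    simp only [evs, truthG]
    have h1 : dr n (annN n i (evs n D φ e i)) = fun s t => dr n i s t ∧
        (truthG (VD n D) φ (dr n e) (dr n i) s ↔ truthG (VD n D) φ (dr n e) (dr n i) t) := by
      funext s t
      rw [← ih1 e i he hi s, ← ih1 e i he hi t]
      simp only [dr, annN, rc_tb n _ s.2 t.2, Bool.and_eq_true, beq_iff]
    rw [ih2 e _ he (en_dr_ann ..) w, h1]
  | res ψ ih =>
    intro e i he hi w
    simp only [evs, truthG]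
    have h1 : dr n (capN n e i) = fun s t => dr n e s t ∧ dr n i s t := by
      funext s t
      simp only [dr, capN, rc_tb n _ s.2 t.2, Bool.and_eq_true]
    rw [ih _ i (en_dr_cap ..) hi w, h1]
  | ref ψ ih =>
    intro e i he hi w
    simp only [evs, truthG]
    have h1 : dr n (capN n e i) = fun s t => dr n e s t ∧ dr n i s t := by
      funext s t
      simp only [dr, capN, rc_tb n _ s.2 t.2, Bool.and_eq_true]
    rw [ih e _ he (en_dr_cap ..) w, h1]

theorem le_code_pair (a b : ℕ) (t : ℕ) : a ≤ 11 * Nat.pair a b + t ∧ b ≤ 11 * Nat.pair a b + t := by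
  have h1 := Nat.left_le_pair a b
  have h2 := Nat.right_le_pair a b
  omega

/-- Only letters up to the code matter. -/
theorem truthG_congr {W : Type u} {V V' : ℕ → Rl W → Rl W → W → Prop} (φ : Form) :
    ∀ a, code φ ≤ a → (∀ p ≤ a, V p = V' p) → truthG V φ = truthG V' φ := by
  induction φ with
  | var p =>
    intro a ha h
    simp only [code] at ha
    funext e i w
    simp only [truthG]
    rw [h p (by omega)]
  | neg φ ih =>
    intro a ha h; simp only [code] at ha
    funext e i w; simp only [truthG, ih a (by omega) h]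
  | and φ ψ ih1 ih2 =>
    intro a ha h; simp only [code] at ha
    have h1 := le_code_pair (code φ) (code ψ) 2
    funext e i w; simp only [truthG, ih1 a (by omega) h, ih2 a (by omega) h]
  | U φ ih =>
    intro a ha h; simp only [code] at ha
    funext e i w; simp only [truthG, ih a (by omega) h]
  | K φ ih =>
    intro a ha h; simp only [code] at ha
    funext e i w; simp only [truthG, ih a (by omega) h]
  | Q φ ih =>
    intro a ha h; simp only [code] at ha
    funext e i w; simp only [truthG, ih a (by omega) h]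
  | R φ ih =>
    intro a ha h; simp only [code] at ha
    funext e i w; simp only [truthG, ih a (by omega) h]
  | ann φ ψ ih1 ih2 =>
    intro a ha h; simp only [code] at ha
    have h1 := le_code_pair (code φ) (code ψ) 7
    funext e i w; simp only [truthG, ih1 a (by omega) h, ih2 a (by omega) h]
  | ask φ ψ ih1 ih2 =>
    intro a ha h; simp only [code] at ha
    have h1 := le_code_pair (code φ) (code ψ) 8
    funext e i w; simp only [truthG, ih1 a (by omega) h, ih2 a (by omega) h]
  | res ψ ih =>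
    intro a ha h; simp only [code] at ha
    funext e i w; simp only [truthG, ih a (by omega) h]
  | ref ψ ih =>
    intro a ha h; simp only [code] at ha
    funext e i w; simp only [truthG, ih a (by omega) h]

/-- bound for the codes of the relevant facts -/
def big (a n : ℕ) : ℕ :=
  Nat.pair (a + 1) (Nat.pair (2 ^ Nat.pair n n) (Nat.pair (2 ^ Nat.pair n n) n))

open Classical in
theorem exists_D {n : ℕ} (a : ℕ) (V : ℕ → Rl (Fin n) → Rl (Fin n) → Fin n → Prop) :
    ∃ D < 2 ^ big a n, ∀ p ≤ a, VD n D p = V p := by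
  refine ⟨mk (fun z => decide (∃ hw : z.unpair.2.unpair.2.unpair.2 < n,
    V z.unpair.1 (dr n z.unpair.2.unpair.1) (dr n z.unpair.2.unpair.2.unpair.1) ⟨_, hw⟩))
    (big a n), mk_lt _ _, ?_⟩
  intro p hp
  funext e i w
  have h1 : Nat.pair p (Nat.pair (en e) (Nat.pair (en i) w)) < big a n :=
    pair_lt_pair (Nat.lt_succ_of_le hp) (pair_lt_pair (en_lt e) (pair_lt_pair (en_lt i) w.2))
  simp only [VD, testBit_mk, h1, decide_true, Bool.true_and, Nat.unpair_pair, decide_eq_true_iff,
    dr_en, Fin.is_lt, Fin.eta, exists_true_left]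

/-- coded equivalence relations -/
def isEq (n e : ℕ) : Bool :=
  (ball (fun s => e.testBit (Nat.pair s s)) n &&
   ball (fun s => ball (fun t => !e.testBit (Nat.pair s t) || e.testBit (Nat.pair t s)) n) n) &&
  (ball (fun s => ball (fun t => ball (fun r =>
    !(e.testBit (Nat.pair s t) && e.testBit (Nat.pair t r)) || e.testBit (Nat.pair s r)) n) n) n &&
   (rc n (fun s t => e.testBit (Nat.pair s t)) == e))

theorem isEq_equiv {n e : ℕ} (h : isEq n e = true) : Equivalence (dr n e) ∧ en (dr n e) = e := by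
  simp only [isEq, Bool.and_eq_true, ball_iff, Bool.or_eq_true, Bool.not_eq_true',
    beq_iff_eq] at h
  obtain ⟨⟨h1, h2⟩, h3, h4⟩ := h
  refine ⟨⟨fun s => h1 s s.2, ?_, ?_⟩, ?_⟩
  · intro s t hst
    rcases h2 s s.2 t t.2 with h5 | h5
    · simp only [dr] at hst; rw [hst] at h5; cases h5
    · exact h5
  · intro s t r hst htr
    rcases h3 s s.2 t t.2 r r.2 with h5 | h5
    · simp only [dr] at hst htr; rw [hst, htr] at h5; cases h5
    · exact h5
  · rw [← h4]
    exact en_dr_rc n _

theorem isEq_en {n : ℕ} {ρ : Rl (Fin n)} (h : Equivalence ρ) : isEq n (en ρ) = true := by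
  have key : ∀ s t : Fin n, (en ρ).testBit (Nat.pair s t) = true ↔ ρ s t := by
    intro s t
    have := congrFun (congrFun (dr_en ρ) s) t
    simp only [dr] at this
    rw [this]
  simp only [isEq, Bool.and_eq_true, ball_iff, Bool.or_eq_true, Bool.not_eq_true', beq_iff_eq]
  refine ⟨⟨fun s hs => (key ⟨s, hs⟩ ⟨s, hs⟩).2 (h.refl _), ?_⟩, ?_, ?_⟩
  · intro s hs t ht
    by_cases h5 : (en ρ).testBit (Nat.pair s t) = true
    · exact Or.inr ((key ⟨t, ht⟩ ⟨s, hs⟩).2 (h.symm ((key ⟨s, hs⟩ ⟨t, ht⟩).1 h5)))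
    · exact Or.inl (by simpa using h5)
  · intro s hs t ht r hr
    by_cases h5 : ((en ρ).testBit (Nat.pair s t) && (en ρ).testBit (Nat.pair t r)) = true
    · rw [Bool.and_eq_true] at h5
      exact Or.inr ((key ⟨s, hs⟩ ⟨r, hr⟩).2 (h.trans ((key ⟨s, hs⟩ ⟨t, ht⟩).1 h5.1)
        ((key ⟨t, ht⟩ ⟨r, hr⟩).1 h5.2)))
    · exact Or.inl (by simpa using h5)
  · have h6 := en_dr_rc n (fun s t => (en ρ).testBit (Nat.pair s t))
    rw [← h6]
    conv_rhs => rw [← dr_en ρ]
    congr 1
    funext s t
    simp only [dr, rc_tb n _ s.2 t.2]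

theorem sz_le (φ : Form) : sz φ ≤ code φ + 1 := by
  induction φ with
  | var p => simp [sz]
  | neg φ ih => simp only [sz, code]; omega
  | and φ ψ ih1 ih2 =>
    simp only [sz, code]; have := Nat.add_le_pair (code φ) (code ψ); omega
  | U φ ih => simp only [sz, code]; omega
  | K φ ih => simp only [sz, code]; omega
  | Q φ ih => simp only [sz, code]; omega
  | R φ ih => simp only [sz, code]; omega
  | ann φ ψ ih1 ih2 =>
    simp only [sz, code]; have := Nat.add_le_pair (code φ) (code ψ); omega
  | ask φ ψ ih1 ih2 =>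
    simp only [sz, code]; have := Nat.add_le_pair (code φ) (code ψ); omega
  | res ψ ih => simp only [sz, code]; omega
  | ref ψ ih => simp only [sz, code]; omega

theorem bnd_mono {m m' : ℕ} (h : m ≤ m') : bnd m ≤ bnd m' := by
  unfold bnd
  gcongr <;> norm_num

/-- search bound -/
def zb (a : ℕ) : ℕ :=
  Nat.pair (bnd (a + 2)) (Nat.pair (2 ^ big a (bnd (a + 2)))
    (Nat.pair (2 ^ Nat.pair (bnd (a + 2)) (bnd (a + 2)))
      (Nat.pair (2 ^ Nat.pair (bnd (a + 2)) (bnd (a + 2))) (bnd (a + 2))))) + 1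

/-- the numerical characterisation of schematic validity -/
theorem schem_num (φ : Form) : SchemValid.{u} φ ↔ ∀ z < zb (code φ),
    (isEq z.unpair.1 z.unpair.2.unpair.2.unpair.1 = true →
     isEq z.unpair.1 z.unpair.2.unpair.2.unpair.2.unpair.1 = true →
     z.unpair.2.unpair.2.unpair.2.unpair.2 < z.unpair.1 →
     (evs z.unpair.1 z.unpair.2.unpair.1 φ z.unpair.2.unpair.2.unpair.1
       z.unpair.2.unpair.2.unpair.2.unpair.1).testBit z.unpair.2.unpair.2.unpair.2.unpair.2
       = true) := by
  constructor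
  · intro h z _ h1 h2 h3
    have h4 := isEq_equiv h1
    have h5 := isEq_equiv h2
    have key := sem z.unpair.1 z.unpair.2.unpair.1 φ _ _ h4.2 h5.2 ⟨_, h3⟩
    simp only at key
    rw [key]
    by_contra h6
    exact not_schem _ _ h4.1 h5.1 _ _ h6 h
  · intro h
    rw [schem_iff]
    intro n hn e i V w he hi
    obtain ⟨D, hD, hV⟩ := exists_D (code φ) V
    rw [← truthG_congr φ (code φ) le_rfl hV]
    have hn' : n ≤ bnd (code φ + 2) := hn.trans (bnd_mono (by have := sz_le φ; omega))
    have hpp : Nat.pair n n ≤ Nat.pair (bnd (code φ + 2)) (bnd (code φ + 2)) :=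
      pair_le_pair hn' hn'
    have hp2 : 2 ^ Nat.pair n n ≤ 2 ^ Nat.pair (bnd (code φ + 2)) (bnd (code φ + 2)) :=
      Nat.pow_le_pow_right (by norm_num) hpp
    have hbig : big (code φ) n ≤ big (code φ) (bnd (code φ + 2)) :=
      pair_le_pair le_rfl (pair_le_pair hp2 (pair_le_pair hp2 hn'))
    have hz : Nat.pair n (Nat.pair D (Nat.pair (en e) (Nat.pair (en i) w))) < zb (code φ) := by
      refine Nat.lt_succ_of_le (pair_le_pair hn' (pair_le_pair ?_ (pair_le_pair ?_
        (pair_le_pair ?_ ?_))))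
      · exact hD.le.trans (Nat.pow_le_pow_right (by norm_num) hbig)
      · exact (en_lt e).le.trans hp2
      · exact (en_lt i).le.trans hp2
      · exact w.2.le.trans hn'
    have key := h _ hz
    simp only [Nat.unpair_pair] at key
    have key2 := key (isEq_en he) (isEq_en hi) w.2
    rw [sem n D φ (en e) (en i) (by rw [dr_en]) (by rw [dr_en]) w, dr_en, dr_en] at key2
    exact key2

end R624DI
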