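import Pool.Agent.R624.DI.Gen

/-!
Finite models for the generalised semantics, with a computable bound.
-/

namespace R624DI

universe u v

/-- number of nodes of a formula -/
def sz : Form → ℕ
  | .var _ => 1
  | .neg φ => sz φ + 1
  | .and φ ψ => sz φ + sz ψ + 1
  | .U φ => sz φ + 1
  | .K φ => sz φ + 1
  | .Q φ => sz φ + 1
  | .R φ => sz φ + 1
  | .ann φ ψ => sz φ + sz ψ + 1
  | .ask φ ψ => sz φ + sz ψ + 1
  | .res φ => sz φ + 1
  | .ref φ => sz φ + 1

/-- The truth sets met in the evaluation of a formula. -/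
def occ {W : Type u} (V : ℕ → Rl W → Rl W → W → Prop) : Form → Rl W → Rl W → List (W → Prop)
  | .var p, e, i => [V p e i]
  | .neg φ, e, i => occ V φ e i
  | .and φ ψ, e, i => occ V φ e i ++ occ V ψ e i
  | .U φ, e, i => truthG V φ e i :: occ V φ e i
  | .K φ, e, i => truthG V φ e i :: occ V φ e i
  | .Q φ, e, i => truthG V φ e i :: occ V φ e i
  | .R φ, e, i => truthG V φ e i :: occ V φ e i
  | .ann φ ψ, e, i => truthG V φ e i :: (occ V φ e i ++
      occ V ψ (fun s t => e s t ∧ (truthG V φ e i s ↔ truthG V φ e i t)) i)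
  | .ask φ ψ, e, i => truthG V φ e i :: (occ V φ e i ++
      occ V ψ e (fun s t => i s t ∧ (truthG V φ e i s ↔ truthG V φ e i t)))
  | .res ψ, e, i => occ V ψ (fun s t => e s t ∧ i s t) i
  | .ref ψ, e, i => occ V ψ e (fun s t => e s t ∧ i s t)

theorem occ_length {W : Type u} (V : ℕ → Rl W → Rl W → W → Prop) (φ : Form) :
    ∀ e i, (occ V φ e i).length ≤ sz φ := by
  induction φ with
  | var p => intro e i; simp [occ, sz]
  | neg φ ih => intro e i; simp only [occ, sz]; have := ih e i; omega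
  | and φ ψ ih1 ih2 =>
    intro e i
    simp only [occ, sz, List.length_append]
    have := ih1 e i; have := ih2 e i; omega
  | U φ ih => intro e i; simp only [occ, sz, List.length_cons]; have := ih e i; omega
  | K φ ih => intro e i; simp only [occ, sz, List.length_cons]; have := ih e i; omega
  | Q φ ih => intro e i; simp only [occ, sz, List.length_cons]; have := ih e i; omega
  | R φ ih => intro e i; simp only [occ, sz, List.length_cons]; have := ih e i; omega
  | ann φ ψ ih1 ih2 =>
    intro e i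
    simp only [occ, sz, List.length_append, List.length_cons]
    have := ih1 e i
    have := ih2 (fun s t => e s t ∧ (truthG V φ e i s ↔ truthG V φ e i t)) i
    omega
  | ask φ ψ ih1 ih2 =>
    intro e i
    simp only [occ, sz, List.length_append, List.length_cons]
    have := ih1 e i
    have := ih2 e (fun s t => i s t ∧ (truthG V φ e i s ↔ truthG V φ e i t))
    omega
  | res ψ ih =>
    intro e i; simp only [occ, sz]; have := ih (fun s t => e s t ∧ i s t) i; omega
  | ref ψ ih =>
    intro e i; simp only [occ, sz]; have := ih e (fun s t => e s t ∧ i s t); omega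

theorem inv_of_occ {W : Type u} {T : Type v} (V : ℕ → Rl W → Rl W → W → Prop) (ty : W → T)
    (φ : Form) : ∀ e i, (∀ P ∈ occ V φ e i, ∀ s t, ty s = ty t → (P s ↔ P t)) →
      Inv V ty φ e i := by
  induction φ with
  | var p => intro e i h; exact h _ (by simp [occ])
  | neg φ ih => intro e i h; exact ih e i h
  | and φ ψ ih1 ih2 =>
    intro e i h
    simp only [occ, List.mem_append] at h
    exact ⟨ih1 e i fun P hP => h P (Or.inl hP), ih2 e i fun P hP => h P (Or.inr hP)⟩
  | U φ ih =>
    intro e i h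
    simp only [occ, List.mem_cons] at h
    exact ⟨ih e i fun P hP => h P (Or.inr hP), h _ (Or.inl rfl)⟩
  | K φ ih =>
    intro e i h
    simp only [occ, List.mem_cons] at h
    exact ⟨ih e i fun P hP => h P (Or.inr hP), h _ (Or.inl rfl)⟩
  | Q φ ih =>
    intro e i h
    simp only [occ, List.mem_cons] at h
    exact ⟨ih e i fun P hP => h P (Or.inr hP), h _ (Or.inl rfl)⟩
  | R φ ih =>
    intro e i h
    simp only [occ, List.mem_cons] at h
    exact ⟨ih e i fun P hP => h P (Or.inr hP), h _ (Or.inl rfl)⟩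
  | ann φ ψ ih1 ih2 =>
    intro e i h
    simp only [occ, List.mem_cons, List.mem_append] at h
    exact ⟨ih1 e i fun P hP => h P (Or.inr (Or.inl hP)), h _ (Or.inl rfl),
      ih2 _ _ fun P hP => h P (Or.inr (Or.inr hP))⟩
  | ask φ ψ ih1 ih2 =>
    intro e i h
    simp only [occ, List.mem_cons, List.mem_append] at h
    exact ⟨ih1 e i fun P hP => h P (Or.inr (Or.inl hP)), h _ (Or.inl rfl),
      ih2 _ _ fun P hP => h P (Or.inr (Or.inr hP))⟩
  | res ψ ih => intro e i h; exact ih _ _ h
  | ref ψ ih => intro e i h; exact ih _ _ h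

/-! ### The finite covering structure -/

section
open Classical
variable {W : Type u} {T : Type}

/-- the kind of a world -/
def kind (e i : Rl W) (ty : W → T) (w : W) : Set T × Set T × Set T :=
  ({a | ∃ s, e w s ∧ i w s ∧ ty s = a}, {a | ∃ s, e w s ∧ ty s = a},
    {a | ∃ s, i w s ∧ ty s = a})

/-- the type of extended kinds -/
abbrev Kd (T : Type) : Type := (Set T × Set T × Set T) × Bool

variable {e i : Rl W} {ty : W → T}

theorem kind_A (he : Equivalence e) {s t : W} (h : e s t) :
    (kind e i ty s).2.1 = (kind e i ty t).2.1 := by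
  ext a
  simp only [kind, Set.mem_ofPred_eq]
  constructor
  · rintro ⟨x, h1, h2⟩; exact ⟨x, he.trans (he.symm h) h1, h2⟩
  · rintro ⟨x, h1, h2⟩; exact ⟨x, he.trans h h1, h2⟩

theorem kind_B (hi : Equivalence i) {s t : W} (h : i s t) :
    (kind e i ty s).2.2 = (kind e i ty t).2.2 := by
  ext a
  simp only [kind, Set.mem_ofPred_eq]
  constructor
  · rintro ⟨x, h1, h2⟩; exact ⟨x, hi.trans (hi.symm h) h1, h2⟩
  · rintro ⟨x, h1, h2⟩; exact ⟨x, hi.trans h h1, h2⟩

theorem kind_eq (he : Equivalence e) (hi : Equivalence i) {s t : W} (h : e s t) (h' : i s t) :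
    kind e i ty s = kind e i ty t := by
  refine Prod.ext ?_ (Prod.ext (kind_A he h) (kind_B hi h'))
  ext a
  simp only [kind, Set.mem_ofPred_eq]
  constructor
  · rintro ⟨x, h1, h2, h3⟩
    exact ⟨x, he.trans (he.symm h) h1, hi.trans (hi.symm h') h2, h3⟩
  · rintro ⟨x, h1, h2, h3⟩
    exact ⟨x, he.trans h h1, hi.trans h' h2, h3⟩

variable (e i ty)

/-- the worlds of the finite structure -/
def FW (G : Type) : Type :=
  {x : Kd T × G × T // ∃ w, kind e i ty w = x.1.1 ∧ ty w = x.2.2}

variable {e i ty}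
variable {G : Type}

/-- representatives -/
noncomputable def rp (x : FW e i ty G) : W := x.2.choose

theorem rp_kind (x : FW e i ty G) : kind e i ty (rp x) = x.1.1.1 := x.2.choose_spec.1

theorem rp_ty (x : FW e i ty G) : ty (rp x) = x.1.2.2 := x.2.choose_spec.2

/-- build a world -/
def mkw (w : W) (b : Bool) (g : G) : FW e i ty G := ⟨((kind e i ty w, b), g, ty w), w, rfl, rfl⟩

/-- first relation -/
def re (x y : FW e i ty G) : Prop := x.1.1.1.2.1 = y.1.1.1.2.1 ∧ x.1.2.1 = y.1.2.1

/-- second relation -/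
def ri [AddCommGroup G] (f : Kd T ≃ G) (x y : FW e i ty G) : Prop :=
  x.1.1.1.2.2 = y.1.1.1.2.2 ∧ x.1.2.1 + f x.1.1 = y.1.2.1 + f y.1.1

theorem re_equiv : Equivalence (re (e := e) (i := i) (ty := ty) (G := G)) :=
  ⟨fun _ => ⟨rfl, rfl⟩, fun h => ⟨h.1.symm, h.2.symm⟩,
    fun h h' => ⟨h.1.trans h'.1, h.2.trans h'.2⟩⟩

theorem ri_equiv [AddCommGroup G] (f : Kd T ≃ G) :
    Equivalence (ri (e := e) (i := i) (ty := ty) f) :=
  ⟨fun _ => ⟨rfl, rfl⟩, fun h => ⟨h.1.symm, h.2.symm⟩,
    fun h h' => ⟨h.1.trans h'.1, h.2.trans h'.2⟩⟩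

theorem re_ri [AddCommGroup G] {f : Kd T ≃ G} {x y : FW e i ty G} (h : re x y) (h' : ri f x y) :
    x.1.1 = y.1.1 := by
  have h1 := h'.2
  rw [h.2] at h1
  exact f.injective (add_left_cancel h1)

theorem cov [AddCommGroup G] (he : Equivalence e) (hi : Equivalence i) (f : Kd T ≃ G) :
    Cov e i (re (e := e) (i := i) (ty := ty) (G := G)) (ri f) ty rp where
  A := by
    intro x y h
    by_cases h' : ri f x y
    · have h1 := re_ri h h'
      have h2 : ty (rp y) ∈ (kind e i ty (rp y)).1 := ⟨rp y, he.refl _, hi.refl _, rfl⟩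
      rw [rp_kind, ← h1, ← rp_kind x] at h2
      obtain ⟨s, h3, h4, h5⟩ := h2
      exact ⟨s, h3, h5, fun _ => h4⟩
    · have h2 : ty (rp y) ∈ (kind e i ty (rp y)).2.1 := ⟨rp y, he.refl _, rfl⟩
      rw [rp_kind, ← h.1, ← rp_kind x] at h2
      obtain ⟨s, h3, h5⟩ := h2
      exact ⟨s, h3, h5, fun h6 => absurd h6 h'⟩
  B := by
    intro x s h
    by_cases h' : i (rp x) s
    · refine ⟨⟨(x.1.1, x.1.2.1, ty s), s, ?_, rfl⟩, ⟨rfl, rfl⟩, ?_, fun _ => ⟨rfl, rfl⟩⟩
      · rw [← kind_eq he hi h h', rp_kind]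
      · exact rp_ty _
    · refine ⟨mkw s false x.1.2.1, ⟨?_, rfl⟩, ?_, fun h6 => absurd h6 h'⟩
      · have := kind_A (i := i) (ty := ty) he h
        rw [rp_kind] at this
        exact this
      · exact rp_ty _
  A' := by
    intro x y h'
    by_cases h : re x y
    · have h1 := re_ri h h'
      have h2 : ty (rp y) ∈ (kind e i ty (rp y)).1 := ⟨rp y, he.refl _, hi.refl _, rfl⟩
      rw [rp_kind, ← h1, ← rp_kind x] at h2
      obtain ⟨s, h3, h4, h5⟩ := h2
      exact ⟨s, h4, h5, fun _ => h3⟩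
    · have h2 : ty (rp y) ∈ (kind e i ty (rp y)).2.2 := ⟨rp y, hi.refl _, rfl⟩
      rw [rp_kind, ← h'.1, ← rp_kind x] at h2
      obtain ⟨s, h3, h5⟩ := h2
      exact ⟨s, h3, h5, fun h6 => absurd h6 h⟩
  B' := by
    intro x s h'
    by_cases h : e (rp x) s
    · refine ⟨⟨(x.1.1, x.1.2.1, ty s), s, ?_, rfl⟩, ⟨rfl, rfl⟩, ?_, fun _ => ⟨rfl, rfl⟩⟩
      · rw [← kind_eq he hi h h', rp_kind]
      · exact rp_ty _
    · refine ⟨mkw s false (x.1.2.1 + f x.1.1 - f (kind e i ty s, false)), ⟨?_, ?_⟩, ?_,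
        fun h6 => absurd h6 h⟩
      · have := kind_B (e := e) (ty := ty) hi h'
        rw [rp_kind] at this
        exact this
      · simp [mkw]
      · exact rp_ty _
  S := by
    intro s t h
    by_cases h' : i s t
    · refine ⟨mkw s false 0, mkw t false 0, ?_, ?_, ⟨kind_A he h, rfl⟩,
        ⟨fun _ => h', fun _ => ⟨kind_B hi h', ?_⟩⟩⟩
      · exact rp_ty _
      · exact rp_ty _
      · simp only [mkw, kind_eq he hi h h']
    · refine ⟨mkw s false 0, mkw t true 0, ?_, ?_, ⟨kind_A he h, rfl⟩,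
        ⟨fun h2 => ?_, fun h2 => absurd h2 h'⟩⟩
      · exact rp_ty _
      · exact rp_ty _
      · have h3 := h2.2
        simp only [mkw, zero_add] at h3
        have h4 := f.injective h3
        simp at h4
  S' := by
    intro s t h'
    by_cases h : e s t
    · refine ⟨mkw s false 0, mkw t false 0, ?_, ?_, ⟨kind_B hi h', ?_⟩,
        ⟨fun _ => h, fun _ => ⟨kind_A he h, rfl⟩⟩⟩
      · exact rp_ty _
      · exact rp_ty _
      · simp only [mkw, kind_eq he hi h h']
    · refine ⟨mkw s false 0, mkw t true (f (kind e i ty s, false) - f (kind e i ty t, true)),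
        ?_, ?_, ⟨kind_B hi h', ?_⟩, ⟨fun h2 => ?_, fun h2 => absurd h2 h⟩⟩
      · exact rp_ty _
      · exact rp_ty _
      · simp [mkw]
      · have h3 := h2.2
        simp only [mkw] at h3
        have h4 := f.injective (sub_eq_zero.1 h3.symm)
        simp at h4
  O := by
    intro s
    refine ⟨mkw s false 0, ?_⟩
    exact rp_ty _

/-- size of the ambient type -/
def bnd (m : ℕ) : ℕ :=
  2 ^ 2 ^ m * (2 ^ 2 ^ m * 2 ^ 2 ^ m) * 2 * (2 ^ 2 ^ m * (2 ^ 2 ^ m * 2 ^ 2 ^ m) * 2 * 2 ^ m)

theorem card_kd (m : ℕ) : Fintype.card (Kd (Fin m → Bool)) =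
    2 ^ 2 ^ m * (2 ^ 2 ^ m * 2 ^ 2 ^ m) * 2 := by
  have h5 : Fintype.card (Fin m → Bool) = 2 ^ m := by simp
  unfold Kd
  rw [Fintype.card_prod, Fintype.card_prod, Fintype.card_prod, Fintype.card_set, h5,
    Fintype.card_bool]

theorem card_FW {m : ℕ} (ty : W → (Fin m → Bool)) (G : Type) [Fintype G]
    (hG : Fintype.card G = Fintype.card (Kd (Fin m → Bool))) (inst : Fintype (FW e i ty G)) :
    @Fintype.card (FW e i ty G) inst ≤ bnd m := by
  have h4 : @Fintype.card (FW e i ty G) inst ≤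
      Fintype.card (Kd (Fin m → Bool) × G × (Fin m → Bool)) := by
    apply Fintype.card_le_of_injective (fun x => x.1)
    intro x y h
    exact Subtype.ext h
  have h5 : Fintype.card (Fin m → Bool) = 2 ^ m := by simp
  refine h4.trans (le_of_eq ?_)
  rw [Fintype.card_prod (Kd (Fin m → Bool)), Fintype.card_prod G, hG, card_kd, h5]
  rfl

theorem fmp (V : ℕ → Rl W → Rl W → W → Prop) (φ : Form) (e i : Rl W) (he : Equivalence e)
    (hi : Equivalence i) (w : W) (h : ¬ truthG V φ e i w) :
    ∃ n ≤ bnd (sz φ + 1), ∃ (e' i' : Rl (Fin n)) (V' : ℕ → Rl (Fin n) → Rl (Fin n) → Fin n → Prop)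
      (w' : Fin n), Equivalence e' ∧ Equivalence i' ∧ ¬ truthG V' φ e' i' w' := by
  set l := truthG V φ e i :: occ V φ e i with hl
  have hlen : l.length ≤ sz φ + 1 := by
    simp only [hl, List.length_cons]
    have := occ_length V φ e i
    omega
  let T : Type := Fin (sz φ + 1) → Bool
  let ty : W → T := fun w j => if h : (j : ℕ) < l.length then decide (l[(j : ℕ)] w) else false
  have hty : ∀ P ∈ l, ∀ s t, ty s = ty t → (P s ↔ P t) := by
    intro P hP s t hst
    obtain ⟨j, hj, rfl⟩ := List.getElem_of_mem hP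
    have h1 := congrFun hst ⟨j, by omega⟩
    simp only [ty, hj, dite_true, decide_eq_decide] at h1
    exact h1
  have hI : Inv V ty φ e i := inv_of_occ V ty φ e i fun P hP => hty P (List.mem_cons_of_mem _ hP)
  have e0 : st e i ty False (fun _ _ => True) = e := by
    funext s t; simp [st]
  have i0 : st i e ty False (fun _ _ => True) = i := by
    funext s t; simp [st]
  let L := Fintype.card (Kd T)
  have : NeZero L := ⟨Fintype.card_ne_zero⟩
  let f : Kd T ≃ ZMod L := (Fintype.equivFin (Kd T)).trans (ZMod.finEquiv L).toEquiv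
  have hc := cov (e := e) (i := i) (ty := ty) he hi f
  obtain ⟨x, hx⟩ := hc.O w
  have key := truth_lemma hc V φ False (fun _ _ => True) False (fun _ _ => True)
    (by rw [e0, i0]; exact hI) x
  rw [e0, i0] at key
  have h1 : ¬ truthG V φ e i (rp x) := fun h2 => h ((hty _ (List.mem_cons_self ..) _ _ hx).1 h2)
  have h3 := fun h2 => h1 (key.1 h2)
  have e0' : st re (ri f) (ty ∘ rp) False (fun _ _ => True) =
      re (e := e) (i := i) (ty := ty) (G := ZMod L) := by
    funext s t; simp [st]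
  have i0' : st (ri f) re (ty ∘ rp) False (fun _ _ => True) =
      ri (e := e) (i := i) (ty := ty) f := by
    funext s t; simp [st]
  rw [e0', i0'] at h3
  have : Fintype (FW e i ty (ZMod L)) := by unfold FW; infer_instance
  let n := Fintype.card (FW e i ty (ZMod L))
  have hn : n ≤ bnd (sz φ + 1) := card_FW ty (ZMod L) (ZMod.card L) _
  let g : FW e i ty (ZMod L) ≃ Fin n := Fintype.equivFin _
  refine ⟨n, hn, fun a b => re (g.symm a) (g.symm b), fun a b => ri f (g.symm a) (g.symm b),
    fun p e' i' w' => tr e i re (ri f) ty rp V p (fun s t => e' (g s) (g t))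
      (fun s t => i' (g s) (g t)) (g.symm w'), g x, ?_, ?_, fun h2 => h3 ?_⟩
  rotate_right
  · have h7 := (truthG_equiv g (tr e i re (ri f) ty rp V) φ
      (fun a b => re (g.symm a) (g.symm b)) (fun a b => ri f (g.symm a) (g.symm b)) x).1 h2
    simpa using h7
  · exact ⟨fun _ => re_equiv.refl _, fun h => re_equiv.symm h, fun h h' => re_equiv.trans h h'⟩
  · exact ⟨fun _ => (ri_equiv f).refl _, fun h => (ri_equiv f).symm h,
      fun h h' => (ri_equiv f).trans h h'⟩

end

end R624DI
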