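import Pool.Agent.R624.DI.Defs

/-!
Generalised semantics: letters may depend on the current pair of relations.
Substitution lemma, invariance under bijections, and the filtration argument.
-/

namespace R624DI

universe u v

/-- relations -/
abbrev Rl (W : Type u) := W → W → Prop

/-- Generalised truth: the valuation depends on the current relations. -/
def truthG {W : Type u} (V : ℕ → Rl W → Rl W → W → Prop) :
    Form → Rl W → Rl W → W → Prop
  | .var p, e, i, w => V p e i w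
  | .neg φ, e, i, w => ¬ truthG V φ e i w
  | .and φ ψ, e, i, w => truthG V φ e i w ∧ truthG V ψ e i w
  | .U φ, e, i, _ => ∀ v, truthG V φ e i v
  | .K φ, e, i, w => ∀ v, e w v → truthG V φ e i v
  | .Q φ, e, i, w => ∀ v, i w v → truthG V φ e i v
  | .R φ, e, i, w => ∀ v, e w v ∧ i w v → truthG V φ e i v
  | .ann φ ψ, e, i, w =>
      truthG V ψ (fun s t => e s t ∧ (truthG V φ e i s ↔ truthG V φ e i t)) i w
  | .ask φ ψ, e, i, w =>
      truthG V ψ e (fun s t => i s t ∧ (truthG V φ e i s ↔ truthG V φ e i t)) w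
  | .res ψ, e, i, w => truthG V ψ (fun s t => e s t ∧ i s t) i w
  | .ref ψ, e, i, w => truthG V ψ e (fun s t => e s t ∧ i s t) w

/-- The substitution lemma. -/
theorem truth_subst {W : Type u} (V : ℕ → W → Prop) (σ : ℕ → Form) (φ : Form) :
    truth V (subst σ φ) = truthG (fun p => truth V (σ p)) φ := by
  induction φ with
  | var p => rfl
  | neg φ ih => funext e i w; simp only [subst, truth, truthG, ih]
  | and φ ψ ih1 ih2 => funext e i w; simp only [subst, truth, truthG, ih1, ih2]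
  | U φ ih => funext e i w; simp only [subst, truth, truthG, ih]
  | K φ ih => funext e i w; simp only [subst, truth, truthG, ih]
  | Q φ ih => funext e i w; simp only [subst, truth, truthG, ih]
  | R φ ih => funext e i w; simp only [subst, truth, truthG, ih]
  | ann φ ψ ih1 ih2 => funext e i w; simp only [subst, truth, truthG, ih1, ih2]
  | ask φ ψ ih1 ih2 => funext e i w; simp only [subst, truth, truthG, ih1, ih2]
  | res ψ ih => funext e i w; simp only [subst, truth, truthG, ih]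
  | ref ψ ih => funext e i w; simp only [subst, truth, truthG, ih]

/-- Invariance under bijections. -/
theorem truthG_equiv {W : Type u} {W' : Type v} (f : W ≃ W')
    (V : ℕ → Rl W → Rl W → W → Prop) (φ : Form) :
    ∀ (e i : Rl W') (w : W),
      truthG (fun p e' i' w' => V p (fun s t => e' (f s) (f t)) (fun s t => i' (f s) (f t))
        (f.symm w')) φ e i (f w) ↔
      truthG V φ (fun s t => e (f s) (f t)) (fun s t => i (f s) (f t)) w := by
  induction φ with
  | var p => intro e i w; simp [truthG]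
  | neg φ ih => intro e i w; simp only [truthG, ih]
  | and φ ψ ih1 ih2 => intro e i w; simp only [truthG, ih1, ih2]
  | U φ ih =>
    intro e i w
    simp only [truthG]
    rw [← f.forall_congr_right]
    simp only [ih]
  | K φ ih =>
    intro e i w
    simp only [truthG]
    rw [← f.forall_congr_right]
    simp only [ih]
  | Q φ ih =>
    intro e i w
    simp only [truthG]
    rw [← f.forall_congr_right]
    simp only [ih]
  | R φ ih =>
    intro e i w
    simp only [truthG]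
    rw [← f.forall_congr_right]
    simp only [ih]
  | ann φ ψ ih1 ih2 =>
    intro e i w
    simp only [truthG]
    rw [ih2]
    simp only [ih1]
  | ask φ ψ ih1 ih2 =>
    intro e i w
    simp only [truthG]
    rw [ih2]
    simp only [ih1]
  | res ψ ih => intro e i w; simp only [truthG]; rw [ih]
  | ref ψ ih => intro e i w; simp only [truthG]; rw [ih]

/-! ### Filtration -/

/-- The shape of the relations reachable by the transformers. -/
def st {W : Type u} {T : Type v} (e i : Rl W) (ty : W → T) (b : Prop) (ρ : T → T → Prop) : Rl W :=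
  fun s t => e s t ∧ (b → i s t) ∧ ρ (ty s) (ty t)

/-- `ty` is fine enough for all truth sets met in the evaluation of `φ`. -/
def Inv {W : Type u} {T : Type v} (V : ℕ → Rl W → Rl W → W → Prop) (ty : W → T) :
    Form → Rl W → Rl W → Prop
  | .var p, e, i => ∀ s t, ty s = ty t → (V p e i s ↔ V p e i t)
  | .neg φ, e, i => Inv V ty φ e i
  | .and φ ψ, e, i => Inv V ty φ e i ∧ Inv V ty ψ e i
  | .U φ, e, i => Inv V ty φ e i ∧ ∀ s t, ty s = ty t → (truthG V φ e i s ↔ truthG V φ e i t)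
  | .K φ, e, i => Inv V ty φ e i ∧ ∀ s t, ty s = ty t → (truthG V φ e i s ↔ truthG V φ e i t)
  | .Q φ, e, i => Inv V ty φ e i ∧ ∀ s t, ty s = ty t → (truthG V φ e i s ↔ truthG V φ e i t)
  | .R φ, e, i => Inv V ty φ e i ∧ ∀ s t, ty s = ty t → (truthG V φ e i s ↔ truthG V φ e i t)
  | .ann φ ψ, e, i => Inv V ty φ e i ∧
      (∀ s t, ty s = ty t → (truthG V φ e i s ↔ truthG V φ e i t)) ∧
      Inv V ty ψ (fun s t => e s t ∧ (truthG V φ e i s ↔ truthG V φ e i t)) i
  | .ask φ ψ, e, i => Inv V ty φ e i ∧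
      (∀ s t, ty s = ty t → (truthG V φ e i s ↔ truthG V φ e i t)) ∧
      Inv V ty ψ e (fun s t => i s t ∧ (truthG V φ e i s ↔ truthG V φ e i t))
  | .res ψ, e, i => Inv V ty ψ (fun s t => e s t ∧ i s t) i
  | .ref ψ, e, i => Inv V ty ψ e (fun s t => e s t ∧ i s t)

/-- The combinatorial conditions relating `W'` to `W` through `rep`. -/
structure Cov {W : Type u} {W' : Type v} {T : Type} (e i : Rl W) (e' i' : Rl W')
    (ty : W → T) (rep : W' → W) : Prop where
  /-- forth for `e` -/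
  A : ∀ x y, e' x y → ∃ s, e (rep x) s ∧ ty s = ty (rep y) ∧ (i' x y → i (rep x) s)
  B : ∀ x s, e (rep x) s → ∃ y, e' x y ∧ ty (rep y) = ty s ∧ (i (rep x) s → i' x y)
  A' : ∀ x y, i' x y → ∃ s, i (rep x) s ∧ ty s = ty (rep y) ∧ (e' x y → e (rep x) s)
  B' : ∀ x s, i (rep x) s → ∃ y, i' x y ∧ ty (rep y) = ty s ∧ (e (rep x) s → e' x y)
  S : ∀ s t, e s t → ∃ x y, ty (rep x) = ty s ∧ ty (rep y) = ty t ∧ e' x y ∧ (i' x y ↔ i s t)
  S' : ∀ s t, i s t → ∃ x y, ty (rep x) = ty s ∧ ty (rep y) = ty t ∧ i' x y ∧ (e' x y ↔ e s t)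
  O : ∀ s, ∃ x, ty (rep x) = ty s

section
variable {W : Type u} {W' : Type v} {T : Type} {e i : Rl W} {e' i' : Rl W'}
    {ty : W → T} {rep : W' → W}

theorem Cov.swap (h : Cov e i e' i' ty rep) : Cov i e i' e' ty rep :=
  ⟨h.A', h.B', h.A, h.B, h.S', h.S, h.O⟩

theorem Cov.le (h : Cov e i e' i' ty rep) {b c : Prop} {ρ τ : T → T → Prop}
    (heq : st e' i' (ty ∘ rep) b ρ = st e' i' (ty ∘ rep) c τ) {s t : W}
    (hs : st e i ty b ρ s t) : st e i ty c τ s t := by
  obtain ⟨h1, h2, h3⟩ := hs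
  obtain ⟨x, y, hx, hy, hxy, hi⟩ := h.S s t h1
  have h4 : st e' i' (ty ∘ rep) b ρ x y := ⟨hxy, fun hb => hi.2 (h2 hb), by
    simp only [Function.comp]; rw [hx, hy]; exact h3⟩
  rw [heq] at h4
  obtain ⟨h5, h6, h7⟩ := h4
  refine ⟨h1, fun hc => hi.1 (h6 hc), ?_⟩
  simp only [Function.comp] at h7
  rw [hx, hy] at h7
  exact h7

theorem Cov.inj (h : Cov e i e' i' ty rep) {b c : Prop} {ρ τ : T → T → Prop}
    (heq : st e' i' (ty ∘ rep) b ρ = st e' i' (ty ∘ rep) c τ) :
    st e i ty b ρ = st e i ty c τ := by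
  funext s t
  exact propext ⟨h.le heq, h.le heq.symm⟩

/-- The valuation transported to `W'`. -/
def tr (e i : Rl W) (e' i' : Rl W') (ty : W → T) (rep : W' → W)
    (V : ℕ → Rl W → Rl W → W → Prop) : ℕ → Rl W' → Rl W' → W' → Prop :=
  fun p f g x => ∃ b ρ c τ, f = st e' i' (ty ∘ rep) b ρ ∧ g = st i' e' (ty ∘ rep) c τ ∧
    V p (st e i ty b ρ) (st i e ty c τ) (rep x)

theorem tr_iff (h : Cov e i e' i' ty rep) (V : ℕ → Rl W → Rl W → W → Prop)
    (p : ℕ) (b : Prop) (ρ : T → T → Prop) (c : Prop) (τ : T → T → Prop) (x : W') :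
    tr e i e' i' ty rep V p (st e' i' (ty ∘ rep) b ρ) (st i' e' (ty ∘ rep) c τ) x ↔
      V p (st e i ty b ρ) (st i e ty c τ) (rep x) := by
  constructor
  · rintro ⟨b1, ρ1, c1, τ1, h1, h2, h3⟩
    rw [h.inj h1, h.swap.inj h2]
    exact h3
  · intro h3
    exact ⟨b, ρ, c, τ, rfl, rfl, h3⟩

theorem truth_lemma (h : Cov e i e' i' ty rep) (V : ℕ → Rl W → Rl W → W → Prop) (φ : Form) :
    ∀ (b : Prop) (ρ : T → T → Prop) (c : Prop) (τ : T → T → Prop),
      Inv V ty φ (st e i ty b ρ) (st i e ty c τ) → ∀ x,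
      (truthG (tr e i e' i' ty rep V) φ (st e' i' (ty ∘ rep) b ρ) (st i' e' (ty ∘ rep) c τ) x ↔
        truthG V φ (st e i ty b ρ) (st i e ty c τ) (rep x)) := by
  induction φ with
  | var p => intro b ρ c τ _ x; exact tr_iff h V p b ρ c τ x
  | neg φ ih => intro b ρ c τ hI x; simp only [truthG]; rw [ih b ρ c τ hI x]
  | and φ ψ ih1 ih2 =>
    intro b ρ c τ hI x
    simp only [truthG]
    rw [ih1 b ρ c τ hI.1 x, ih2 b ρ c τ hI.2 x]
  | U φ ih =>
    intro b ρ c τ hI x
    simp only [truthG]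
    constructor
    · intro hx s
      obtain ⟨y, hy⟩ := h.O s
      exact (hI.2 _ _ hy).1 ((ih b ρ c τ hI.1 y).1 (hx y))
    · intro hx y
      rw [ih b ρ c τ hI.1 y]
      exact hx _
  | K φ ih =>
    intro b ρ c τ hI x
    simp only [truthG]
    constructor
    · intro hx s hs
      obtain ⟨y, h1, h2, h3⟩ := h.B x s hs.1
      have h4 : st e' i' (ty ∘ rep) b ρ x y := ⟨h1, fun hb => h3 (hs.2.1 hb), by
        simp only [Function.comp]; rw [h2]; exact hs.2.2⟩
      have h5 := (ih b ρ c τ hI.1 y).1 (hx y h4)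
      exact (hI.2 _ _ h2).1 h5
    · intro hx y hy
      obtain ⟨s, h1, h2, h3⟩ := h.A x y hy.1
      have h4 : st e i ty b ρ (rep x) s := ⟨h1, fun hb => h3 (hy.2.1 hb), by
        rw [h2]; exact hy.2.2⟩
      rw [ih b ρ c τ hI.1 y]
      exact (hI.2 _ _ h2).1 (hx s h4)
  | Q φ ih =>
    intro b ρ c τ hI x
    simp only [truthG]
    constructor
    · intro hx s hs
      obtain ⟨y, h1, h2, h3⟩ := h.B' x s hs.1
      have h4 : st i' e' (ty ∘ rep) c τ x y := ⟨h1, fun hb => h3 (hs.2.1 hb), by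
        simp only [Function.comp]; rw [h2]; exact hs.2.2⟩
      have h5 := (ih b ρ c τ hI.1 y).1 (hx y h4)
      exact (hI.2 _ _ h2).1 h5
    · intro hx y hy
      obtain ⟨s, h1, h2, h3⟩ := h.A' x y hy.1
      have h4 : st i e ty c τ (rep x) s := ⟨h1, fun hb => h3 (hy.2.1 hb), by
        rw [h2]; exact hy.2.2⟩
      rw [ih b ρ c τ hI.1 y]
      exact (hI.2 _ _ h2).1 (hx s h4)
  | R φ ih =>
    intro b ρ c τ hI x
    simp only [truthG]
    constructor
    · rintro hx s ⟨hs, hs'⟩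
      obtain ⟨y, h1, h2, h3⟩ := h.B x s hs.1
      have h3' := h3 hs'.1
      have h4 : st e' i' (ty ∘ rep) b ρ x y := ⟨h1, fun hb => h3', by
        simp only [Function.comp]; rw [h2]; exact hs.2.2⟩
      have h4' : st i' e' (ty ∘ rep) c τ x y := ⟨h3', fun hb => h1, by
        simp only [Function.comp]; rw [h2]; exact hs'.2.2⟩
      have h5 := (ih b ρ c τ hI.1 y).1 (hx y ⟨h4, h4'⟩)
      exact (hI.2 _ _ h2).1 h5
    · rintro hx y ⟨hy, hy'⟩
      obtain ⟨s, h1, h2, h3⟩ := h.A x y hy.1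
      have h3' := h3 hy'.1
      have h4 : st e i ty b ρ (rep x) s := ⟨h1, fun hb => h3', by
        rw [h2]; exact hy.2.2⟩
      have h4' : st i e ty c τ (rep x) s := ⟨h3', fun hb => h1, by
        rw [h2]; exact hy'.2.2⟩
      rw [ih b ρ c τ hI.1 y]
      exact (hI.2 _ _ h2).1 (hx s ⟨h4, h4'⟩)
  | ann φ ψ ih1 ih2 =>
    intro b ρ c τ hI x
    obtain ⟨hI1, hI2, hI3⟩ := hI
    simp only [truthG]
    have key : ∀ s, truthG V φ (st e i ty b ρ) (st i e ty c τ) s ↔
        ∃ t, ty t = ty s ∧ truthG V φ (st e i ty b ρ) (st i e ty c τ) t :=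
      fun s => ⟨fun h => ⟨s, rfl, h⟩, fun ⟨t, h1, h2⟩ => (hI2 _ _ h1).1 h2⟩
    set H : T → Prop := fun a => ∃ t, ty t = a ∧
      truthG V φ (st e i ty b ρ) (st i e ty c τ) t with hH
    have e1 : (fun s t => st e i ty b ρ s t ∧ (truthG V φ (st e i ty b ρ) (st i e ty c τ) s ↔
        truthG V φ (st e i ty b ρ) (st i e ty c τ) t)) =
        st e i ty b (fun a a' => ρ a a' ∧ (H a ↔ H a')) := by
      funext s t
      rw [key s, key t]
      simp only [st, hH, and_assoc]
    have e2 : (fun s t => st e' i' (ty ∘ rep) b ρ s t ∧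
        (truthG (tr e i e' i' ty rep V) φ (st e' i' (ty ∘ rep) b ρ) (st i' e' (ty ∘ rep) c τ) s ↔
        truthG (tr e i e' i' ty rep V) φ (st e' i' (ty ∘ rep) b ρ) (st i' e' (ty ∘ rep) c τ) t)) =
        st e' i' (ty ∘ rep) b (fun a a' => ρ a a' ∧ (H a ↔ H a')) := by
      funext s t
      rw [ih1 b ρ c τ hI1 s, ih1 b ρ c τ hI1 t, key (rep s), key (rep t)]
      simp only [st, hH, and_assoc, Function.comp]
    rw [e1] at hI3 ⊢
    rw [e2]
    exact ih2 b _ c τ hI3 x
  | ask φ ψ ih1 ih2 =>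
    intro b ρ c τ hI x
    obtain ⟨hI1, hI2, hI3⟩ := hI
    simp only [truthG]
    have key : ∀ s, truthG V φ (st e i ty b ρ) (st i e ty c τ) s ↔
        ∃ t, ty t = ty s ∧ truthG V φ (st e i ty b ρ) (st i e ty c τ) t :=
      fun s => ⟨fun h => ⟨s, rfl, h⟩, fun ⟨t, h1, h2⟩ => (hI2 _ _ h1).1 h2⟩
    set H : T → Prop := fun a => ∃ t, ty t = a ∧
      truthG V φ (st e i ty b ρ) (st i e ty c τ) t with hH
    have e1 : (fun s t => st i e ty c τ s t ∧ (truthG V φ (st e i ty b ρ) (st i e ty c τ) s ↔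
        truthG V φ (st e i ty b ρ) (st i e ty c τ) t)) =
        st i e ty c (fun a a' => τ a a' ∧ (H a ↔ H a')) := by
      funext s t
      rw [key s, key t]
      simp only [st, hH, and_assoc]
    have e2 : (fun s t => st i' e' (ty ∘ rep) c τ s t ∧
        (truthG (tr e i e' i' ty rep V) φ (st e' i' (ty ∘ rep) b ρ) (st i' e' (ty ∘ rep) c τ) s ↔
        truthG (tr e i e' i' ty rep V) φ (st e' i' (ty ∘ rep) b ρ) (st i' e' (ty ∘ rep) c τ) t)) =
        st i' e' (ty ∘ rep) c (fun a a' => τ a a' ∧ (H a ↔ H a')) := by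
      funext s t
      rw [ih1 b ρ c τ hI1 s, ih1 b ρ c τ hI1 t, key (rep s), key (rep t)]
      simp only [st, hH, and_assoc, Function.comp]
    rw [e1] at hI3 ⊢
    rw [e2]
    exact ih2 b ρ c _ hI3 x
  | res ψ ih =>
    intro b ρ c τ hI x
    simp only [truthG]
    have e1 : (fun s t => st e i ty b ρ s t ∧ st i e ty c τ s t) =
        st e i ty True (fun a a' => ρ a a' ∧ τ a a') := by
      funext s t
      simp only [st]
      apply propext
      constructor
      · rintro ⟨⟨h1, h2, h3⟩, h4, h5, h6⟩; exact ⟨h1, fun _ => h4, h3, h6⟩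
      · rintro ⟨h1, h2, h3, h4⟩; exact ⟨⟨h1, fun _ => h2 trivial, h3⟩, h2 trivial, fun _ => h1, h4⟩
    have e2 : (fun s t => st e' i' (ty ∘ rep) b ρ s t ∧ st i' e' (ty ∘ rep) c τ s t) =
        st e' i' (ty ∘ rep) True (fun a a' => ρ a a' ∧ τ a a') := by
      funext s t
      simp only [st]
      apply propext
      constructor
      · rintro ⟨⟨h1, h2, h3⟩, h4, h5, h6⟩; exact ⟨h1, fun _ => h4, h3, h6⟩
      · rintro ⟨h1, h2, h3, h4⟩; exact ⟨⟨h1, fun _ => h2 trivial, h3⟩, h2 trivial, fun _ => h1, h4⟩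
    simp only [Inv] at hI
    rw [e1] at hI ⊢
    rw [e2]
    exact ih True _ c τ hI x
  | ref ψ ih =>
    intro b ρ c τ hI x
    simp only [truthG]
    have e1 : (fun s t => st e i ty b ρ s t ∧ st i e ty c τ s t) =
        st i e ty True (fun a a' => ρ a a' ∧ τ a a') := by
      funext s t
      simp only [st]
      apply propext
      constructor
      · rintro ⟨⟨h1, h2, h3⟩, h4, h5, h6⟩; exact ⟨h4, fun _ => h1, h3, h6⟩
      · rintro ⟨h1, h2, h3, h4⟩; exact ⟨⟨h2 trivial, fun _ => h1, h3⟩, h1, fun _ => h2 trivial, h4⟩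
    have e2 : (fun s t => st e' i' (ty ∘ rep) b ρ s t ∧ st i' e' (ty ∘ rep) c τ s t) =
        st i' e' (ty ∘ rep) True (fun a a' => ρ a a' ∧ τ a a') := by
      funext s t
      simp only [st]
      apply propext
      constructor
      · rintro ⟨⟨h1, h2, h3⟩, h4, h5, h6⟩; exact ⟨h4, fun _ => h1, h3, h6⟩
      · rintro ⟨h1, h2, h3, h4⟩; exact ⟨⟨h2 trivial, fun _ => h1, h3⟩, h1, fun _ => h2 trivial, h4⟩
    simp only [Inv] at hI
    rw [e1] at hI ⊢
    rw [e2]
    exact ih b ρ True _ hI x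

end

end R624DI
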