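import Pool.Agent.R624.DI.Comp

/-!
Schematic validity is decidable.
-/

namespace R624DI

open Nat.Partrec (Code)

universe u

/-- the formula with a given number -/
noncomputable def dec : ℕ → Form := Function.surjInv code_surj

theorem code_dec (a : ℕ) : code (dec a) = a := Function.surjInv_eq code_surj a

/-- total evaluator on packed arguments -/
noncomputable def GG (x : ℕ) : ℕ := evs (pn x) (pD x) (dec x.unpair.1) (pe x) (pi x)

theorem comp_GG : Computable GG := by
  obtain ⟨c, hc⟩ := exists_code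
  have h : Partrec fun x : ℕ => c.eval x :=
    Nat.Partrec.Code.eval_part.comp (Computable.const c) Computable.id
  refine h.of_eq fun x => ?_
  have h1 := hc (dec x.unpair.1) (pn x) (pD x) (pe x) (pi x)
  rw [code_dec] at h1
  have h2 : pk x.unpair.1 (pn x) (pD x) (pe x) (pi x) = x := by
    simp only [pk, pn, pD, pe, pi, Nat.pair_unpair]
  rw [h2] at h1
  exact h1

/-- the test applied to each candidate -/
noncomputable def tst (a z : ℕ) : Bool :=
  !((isEq z.unpair.1 z.unpair.2.unpair.2.unpair.1 &&
      isEq z.unpair.1 z.unpair.2.unpair.2.unpair.2.unpair.1) &&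
    (decide (z.unpair.2.unpair.2.unpair.2.unpair.2 < z.unpair.1) &&
      !(GG (pk a z.unpair.1 z.unpair.2.unpair.1 z.unpair.2.unpair.2.unpair.1
        z.unpair.2.unpair.2.unpair.2.unpair.1)).testBit z.unpair.2.unpair.2.unpair.2.unpair.2))

theorem comp_tst : Computable₂ tst := by
  have hz : Primrec fun x : ℕ × ℕ => x.2 := Primrec.snd
  have h1 : Primrec fun x : ℕ × ℕ => x.2.unpair.1 := prim_u1 hz
  have h2 : Primrec fun x : ℕ × ℕ => x.2.unpair.2.unpair.1 := prim_u1 (prim_u2 hz)
  have h3 : Primrec fun x : ℕ × ℕ => x.2.unpair.2.unpair.2.unpair.1 :=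
    prim_u1 (prim_u2 (prim_u2 hz))
  have h4 : Primrec fun x : ℕ × ℕ => x.2.unpair.2.unpair.2.unpair.2.unpair.1 :=
    prim_u1 (prim_u2 (prim_u2 (prim_u2 hz)))
  have h5 : Primrec fun x : ℕ × ℕ => x.2.unpair.2.unpair.2.unpair.2.unpair.2 :=
    prim_u2 (prim_u2 (prim_u2 (prim_u2 hz)))
  have hp := prim_pk (Primrec.fst (α := ℕ) (β := ℕ)) h1 h2 h3 h4
  have hG := comp_GG.comp hp.to_comp
  have ht := prim_tb.to_comp.comp hG h5.to_comp
  have hn := Primrec.not.to_comp.comp ht
  have hl := (prim_lt h5 h1).to_comp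
  have he := (prim_and (prim_isEq h1 h3) (prim_isEq h1 h4)).to_comp
  have ha := Primrec.and.to_comp.comp hl hn
  have hb := Primrec.and.to_comp.comp he ha
  have hc := Primrec.not.to_comp.comp hb
  exact hc

theorem comp_ball {p : ℕ → ℕ → Bool} {n : ℕ → ℕ} (hp : Computable₂ p) (hn : Computable n) :
    Computable fun a => ball (p a) (n a) := by
  have h : Computable fun a => Nat.rec (motive := fun _ => Bool) true
      (fun k IH => IH && p a k) (n a) := by
    refine Computable.nat_rec (h := fun a x => x.2 && p a x.1) hn (Computable.const true) ?_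
    have h1 : Computable fun x : ℕ × ℕ × Bool => x.2.2 := Computable.snd.comp Computable.snd
    have h2 : Computable fun x : ℕ × ℕ × Bool => p x.1 x.2.1 :=
      hp.comp Computable.fst (Computable.fst.comp Computable.snd)
    exact Primrec.and.to_comp.comp h1 h2
  refine h.of_eq fun a => ?_
  induction n a with
  | zero => rfl
  | succ k ih => simp only [ball, ← ih]

theorem prim_p2 {f : ℕ → ℕ} (hf : Primrec f) : Primrec fun a => 2 ^ f a := prim_pow2.comp hf

theorem prim_bnd {f : ℕ → ℕ} (hf : Primrec f) : Primrec fun a => bnd (f a) := by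
  unfold bnd
  have h1 := prim_p2 (prim_p2 hf)
  have h2 := Primrec.nat_mul.comp (Primrec.nat_mul.comp h1 (Primrec.nat_mul.comp h1 h1))
    (Primrec.const 2)
  exact Primrec.nat_mul.comp h2 (Primrec.nat_mul.comp h2 (prim_p2 hf))

theorem prim_big {f g : ℕ → ℕ} (hf : Primrec f) (hg : Primrec g) :
    Primrec fun a => big (f a) (g a) := by
  unfold big
  have h1 := prim_p2 (prim_pair hg hg)
  exact prim_pair (Primrec.succ.comp hf) (prim_pair h1 (prim_pair h1 hg))

theorem prim_zb : Primrec zb := by
  unfold zb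
  have hb : Primrec fun a => bnd (a + 2) :=
    prim_bnd (Primrec.nat_add.comp Primrec.id (Primrec.const 2))
  have h1 := prim_p2 (prim_pair hb hb)
  exact Primrec.succ.comp (prim_pair hb (prim_pair (prim_p2 (prim_big Primrec.id hb))
    (prim_pair h1 (prim_pair h1 hb))))

theorem main : ComputablePred fun n : ℕ => ∃ φ : Form, code φ = n ∧ SchemValid.{u} φ := by
  rw [ComputablePred.computable_iff]
  refine ⟨fun a => ball (tst a) (zb a), comp_ball comp_tst prim_zb.to_comp, ?_⟩
  funext a
  apply propext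
  have h0 : (∃ φ : Form, code φ = a ∧ SchemValid.{u} φ) ↔ SchemValid.{u} (dec a) := by
    constructor
    · rintro ⟨φ, rfl, h⟩
      rwa [code_inj (code_dec (code φ))]
    · intro h
      exact ⟨dec a, code_dec a, h⟩
  rw [h0, schem_num, code_dec, ball_iff]
  refine forall_congr' fun z => forall_congr' fun _ => ?_
  have h1 : GG (pk a z.unpair.1 z.unpair.2.unpair.1 z.unpair.2.unpair.2.unpair.1
        z.unpair.2.unpair.2.unpair.2.unpair.1) = evs z.unpair.1 z.unpair.2.unpair.1 (dec a)
        z.unpair.2.unpair.2.unpair.1 z.unpair.2.unpair.2.unpair.2.unpair.1 := by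
    simp only [GG, pk, pn, pD, pe, pi, Nat.unpair_pair]
  rw [tst, h1]
  generalize isEq z.unpair.1 z.unpair.2.unpair.2.unpair.1 = A
  generalize isEq z.unpair.1 z.unpair.2.unpair.2.unpair.2.unpair.1 = B
  generalize (evs z.unpair.1 z.unpair.2.unpair.1 (dec a)
        z.unpair.2.unpair.2.unpair.1 z.unpair.2.unpair.2.unpair.2.unpair.1).testBit
          z.unpair.2.unpair.2.unpair.2.unpair.2 = C
  by_cases hlt : z.unpair.2.unpair.2.unpair.2.unpair.2 < z.unpair.1
  · cases A <;> cases B <;> cases C <;> simp [hlt]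
  · cases A <;> cases B <;> cases C <;> simp [hlt]

end R624DI
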