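import Pool.Agent.R624.DI.Fmp

/-!
Finite generalised models are realised by substitution instances; the finitary characterisation
of schematic validity.
-/

namespace R624DI

universe u

section
open Classical
variable {W : Type u}

/-- a tautology -/
def top : Form := .neg (.and (.var 0) (.neg (.var 0)))

theorem truth_top (V : ℕ → W → Prop) (e i : Rl W) (w : W) : truth V top e i w := by
  simp only [top, truth]
  tauto

/-- conjunctions -/
def conj : List Form → Form
  | [] => top
  | φ :: l => .and φ (conj l)

theorem truth_conj (V : ℕ → W → Prop) (e i : Rl W) (w : W) (l : List Form) :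
    truth V (conj l) e i w ↔ ∀ φ ∈ l, truth V φ e i w := by
  induction l with
  | nil => simp [conj, truth_top]
  | cons φ l ih => simp [conj, truth, ih]

/-- disjunctions -/
def disj (l : List Form) : Form := .neg (conj (l.map .neg))

theorem truth_disj (V : ℕ → W → Prop) (e i : Rl W) (w : W) (l : List Form) :
    truth V (disj l) e i w ↔ ∃ φ ∈ l, truth V φ e i w := by
  simp only [disj, truth, truth_conj, List.mem_map]
  constructor
  · intro h
    by_contra h2
    push Not at h2
    apply h
    rintro ψ ⟨φ, h3, rfl⟩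
    exact h2 φ h3
  · rintro ⟨φ, h1, h2⟩ h3
    exact h3 _ ⟨φ, h1, rfl⟩ h2

variable (nm : W → ℕ)

/-- naming valuation -/
def V0 (p : ℕ) (w : W) : Prop := nm w = p

/-- the formula expressing that two named worlds are epistemically related -/
def relE (s t : W) : Form := .U (.neg (.and (.var (nm s)) (.K (.neg (.var (nm t))))))

/-- the formula expressing that two named worlds are issue related -/
def relI (s t : W) : Form := .U (.neg (.and (.var (nm s)) (.Q (.neg (.var (nm t))))))

variable {nm}

theorem truth_relE (hnm : Function.Injective nm) (e i : Rl W) (s t w : W) :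
    truth (V0 nm) (relE nm s t) e i w ↔ e s t := by
  simp only [relE, truth, V0, hnm.eq_iff]
  constructor
  · intro h
    have h1 := h s
    push Not at h1
    obtain ⟨v, hv, rfl⟩ := h1 rfl
    exact hv
  · rintro h v ⟨rfl, h2⟩
    exact h2 t h rfl

theorem truth_relI (hnm : Function.Injective nm) (e i : Rl W) (s t w : W) :
    truth (V0 nm) (relI nm s t) e i w ↔ i s t := by
  simp only [relI, truth, V0, hnm.eq_iff]
  constructor
  · intro h
    have h1 := h s
    push Not at h1
    obtain ⟨v, hv, rfl⟩ := h1 rfl
    exact hv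
  · rintro h v ⟨rfl, h2⟩
    exact h2 t h rfl

/-- signed formulas -/
noncomputable def sgn (P : Prop) (φ : Form) : Form := if P then φ else .neg φ

theorem truth_sgn (V : ℕ → W → Prop) (e i : Rl W) (w : W) (P : Prop) (φ : Form) :
    truth V (sgn P φ) e i w ↔ (truth V φ e i w ↔ P) := by
  by_cases h : P <;> simp [sgn, h, truth]

variable [Finite W]

/-- Every property of (relations, world) is definable with names. -/
theorem definable (hnm : Function.Injective nm) (F : Rl W → Rl W → W → Prop) :
    ∃ θ : Form, ∀ e i w, truth (V0 nm) θ e i w ↔ F e i w := by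
  have : Fintype W := Fintype.ofFinite W
  let χ : Rl W → Rl W → Form := fun e0 i0 =>
    conj ((Finset.univ : Finset (W × W)).toList.map fun x =>
      .and (sgn (e0 x.1 x.2) (relE nm x.1 x.2)) (sgn (i0 x.1 x.2) (relI nm x.1 x.2)))
  have hχ : ∀ e0 i0 e i w, truth (V0 nm) (χ e0 i0) e i w ↔ (e = e0 ∧ i = i0) := by
    intro e0 i0 e i w
    simp only [χ, truth_conj, List.mem_map, Finset.mem_toList, Finset.mem_univ, true_and]
    constructor
    · intro h
      have h1 : ∀ s t, (e s t ↔ e0 s t) ∧ (i s t ↔ i0 s t) := by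
        intro s t
        have h2 := h _ ⟨(s, t), rfl⟩
        simp only [truth, truth_sgn, truth_relE hnm, truth_relI hnm] at h2
        exact h2
      exact ⟨funext fun s => funext fun t => propext (h1 s t).1,
        funext fun s => funext fun t => propext (h1 s t).2⟩
    · rintro ⟨rfl, rfl⟩ φ ⟨x, rfl⟩
      simp only [truth, truth_sgn, truth_relE hnm, truth_relI hnm, and_self]
  refine ⟨disj (((Finset.univ : Finset (Rl W × Rl W × W)).filter
    fun x => F x.1 x.2.1 x.2.2).toList.map fun x => .and (χ x.1 x.2.1) (.var (nm x.2.2))), ?_⟩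
  intro e i w
  rw [truth_disj]
  simp only [List.mem_map, Finset.mem_toList, Finset.mem_filter, Finset.mem_univ, true_and]
  constructor
  · rintro ⟨φ, ⟨⟨e0, i0, w0⟩, h1, rfl⟩, h2⟩
    simp only [truth, hχ, V0] at h2
    obtain ⟨⟨rfl, rfl⟩, h3⟩ := h2
    rw [hnm h3]
    exact h1
  · intro h
    refine ⟨_, ⟨(e, i, w), h, rfl⟩, ?_⟩
    simp only [truth, hχ, V0]
    exact ⟨⟨trivial, trivial⟩, trivial⟩

end

theorem not_schem {φ : Form} {n : ℕ} (e i : Rl (Fin n)) (he : Equivalence e)
    (hi : Equivalence i) (V : ℕ → Rl (Fin n) → Rl (Fin n) → Fin n → Prop) (w : Fin n)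
    (h : ¬ truthG V φ e i w) : ¬ SchemValid.{u} φ := by
  intro hS
  let f : Fin n ≃ ULift.{u} (Fin n) := Equiv.ulift.symm
  let nm : ULift.{u} (Fin n) → ℕ := fun x => (x.down : ℕ)
  have hnm : Function.Injective nm := fun x y hxy => ULift.ext _ _ (Fin.ext hxy)
  have key := truthG_equiv f V φ (fun s t => e (f.symm s) (f.symm t))
    (fun s t => i (f.symm s) (f.symm t)) w
  simp only [Equiv.symm_apply_apply] at key
  choose σ hσ using fun p => definable hnm
    ((fun p e' i' w' => V p (fun s t => e' (f s) (f t)) (fun s t => i' (f s) (f t))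
        (f.symm w') : ℕ → Rl (ULift.{u} (Fin n)) → Rl (ULift.{u} (Fin n)) →
          ULift.{u} (Fin n) → Prop) p)
  have h1 : (fun p => truth (V0 nm) (σ p)) = (fun p e' i' w' => V p (fun s t => e' (f s) (f t))
      (fun s t => i' (f s) (f t)) (f.symm w')) := by
    funext p e' i' w'
    exact propext (hσ p e' i' w')
  apply h
  rw [← key, ← h1, ← truth_subst]
  exact hS σ ⟨_, fun s t => e (f.symm s) (f.symm t), fun s t => i (f.symm s) (f.symm t), V0 nm,
    ⟨fun _ => he.refl _, fun h => he.symm h, fun h h' => he.trans h h'⟩,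
    ⟨fun _ => hi.refl _, fun h => hi.symm h, fun h h' => hi.trans h h'⟩⟩ _

theorem schem_iff (φ : Form) : SchemValid.{u} φ ↔ ∀ n ≤ bnd (sz φ + 1),
    ∀ (e i : Rl (Fin n)) (V : ℕ → Rl (Fin n) → Rl (Fin n) → Fin n → Prop) (w : Fin n),
      Equivalence e → Equivalence i → truthG V φ e i w := by
  constructor
  · intro h n _ e i V w he hi
    by_contra h2
    exact not_schem e i he hi V w h2 h
  · intro h σ M w
    by_contra h2
    rw [truth_subst] at h2
    obtain ⟨n, hn, e', i', V', w', h3, h4, h5⟩ := fmp _ φ M.e M.i M.he M.hi w h2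
    exact h5 (h n hn e' i' V' w' h3 h4)

end R624DI
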